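import Pool.Agent.L5helper66.PC.RankOne

/-!
# The condition `Full`
-/

set_option autoImplicit false

open TensorProduct Module Matrix Pool.Agent.E8helper40.PC

namespace Pool.Agent.L5helper66.PC

variable {p : ℕ} [Fact p.Prime] {n : ℕ} (A : SimpleAbelianVariety p n)

/-- If `End⁰(A)` is commutative then all points of infinite order satisfy the condition. -/
lemma full_of_comm (hcomm : ∀ x y : A.End, x * y = y * x) {v : ℚ ⊗[ℤ] A.Pts} (hv : v ≠ 0) :
    Full A (lg A v) := by
  apply full_of_basis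
  set d := finrank ℚ A.End with hd
  let ω := Module.finBasis ℚ A.End
  set ℓ := extend (A.log.comp A.incl) with hℓ
  let Λ : ℚ ⊗[ℤ] A.Pts →+ (Fin n → AlgebraicClosure ℚ_[p]) :=
    { toFun := fun v b => algebraMap ℚ_[p] (AlgebraicClosure ℚ_[p]) (ℓ v b)
      map_zero' := by
        funext b
        simp
      map_add' := by
        intro v w
        funext b
        simp }
  have hacl : IsAlgClosed (Qbar p) :=
    (algebraicClosure.isAlgClosure ℚ (AlgebraicClosure ℚ_[p])).isAlgClosed
  have hΛ : ∀ (δ : A.End) (v : ℚ ⊗[ℤ] A.Pts),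
      Λ (δ • v) = (ovf (AlgebraicClosure ℚ_[p]) (A.lie δ)) *ᵥ Λ v := by
    intro δ v
    funext b
    have h := congrFun (A.log_smul δ v) b
    change algebraMap ℚ_[p] (AlgebraicClosure ℚ_[p]) (ℓ (δ • v) b) = _
    rw [hℓ, h]
    simp only [Matrix.mulVec, dotProduct, Matrix.map_apply, map_sum, map_mul, ovf]
    refine Finset.sum_congr rfl fun a _ => ?_
    congr 1
  have hli : LinearIndependent ℚ fun l : Fin d => ω l • v := by
    rw [Fintype.linearIndependent_iff]
    intro g hg
    have h1 : (∑ l, g l • ω l) • v = 0 := by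
      rw [Finset.sum_smul, ← hg]
      exact Finset.sum_congr rfl fun l _ => smul_assoc _ _ _
    have h2 := (smul_eq_zero.1 h1).resolve_right hv
    exact Fintype.linearIndependent_iff.1 ω.linearIndependent g h2
  have hmain := card_le (k := Qbar p) A.pos A.lie (⊤ : Subfield A.End)
    (fun x _ y _ => hcomm x y) Λ hΛ A.independent _ hli
  have hspan : Submodule.span A.End (Set.range fun l : Fin d => ω l • v)
      = Submodule.span A.End {v} := by
    apply le_antisymm
    · rw [Submodule.span_le]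
      rintro _ ⟨l, rfl⟩
      exact Submodule.smul_mem _ _ (Submodule.mem_span_singleton_self v)
    · rw [Submodule.span_le, Set.singleton_subset_iff]
      have hdpos : 0 < d := Module.finrank_pos
      have h1 : (ω ⟨0, hdpos⟩)⁻¹ • (ω ⟨0, hdpos⟩ • v) = v := by
        rw [smul_smul, inv_mul_cancel₀ (ω.ne_zero _), one_smul]
      rw [SetLike.mem_coe]
      have h2 := Submodule.smul_mem (Submodule.span A.End (Set.range fun l : Fin d => ω l • v))
        (ω ⟨0, hdpos⟩)⁻¹ (Submodule.subset_span ⟨⟨0, hdpos⟩, rfl⟩)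
      change (ω ⟨0, hdpos⟩)⁻¹ • (ω ⟨0, hdpos⟩ • v) ∈ _ at h2
      rwa [h1] at h2
  have hfr : finrank (⊤ : Subfield A.End) (Submodule.span A.End
      (Set.range fun l : Fin d => ω l • v)) = 1 := by
    rw [hspan]
    have h1 := Module.finrank_mul_finrank (⊤ : Subfield A.End) A.End (Submodule.span A.End {v})
    rw [finrank_span_singleton hv, mul_one] at h1
    have h2 : finrank (⊤ : Subfield A.End) A.End = 1 := by
      rw [finrank_eq_one_iff_of_nonzero' (1 : A.End) one_ne_zero]
      intro w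
      exact ⟨⟨w, Subfield.mem_top w⟩, by
        change (w : A.End) * 1 = w
        rw [mul_one]⟩
    rw [← h1, h2]
  rw [hfr, mul_one] at hmain
  have hle : finrank (AlgebraicClosure ℚ_[p]) (Submodule.span (AlgebraicClosure ℚ_[p])
      (Set.range fun l : Fin d => Λ (ω l • v)))
      ≤ finrank ℚ_[p] (Submodule.span ℚ_[p] (Set.range fun l : Fin d => ℓ (ω l • v))) :=
    finrank_span_map_le (K := AlgebraicClosure ℚ_[p]) (fun l : Fin d => ℓ (ω l • v))
  have h3 : (fun l : Fin d => ℓ (ω l • v)) = fun l => (act A (ω l)).mulVec (lg A v) := by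
    funext l
    exact A.log_smul _ _
  rw [h3] at hle
  have h4 : LinearIndependent ℚ_[p] (fun l : Fin d => (act A (ω l)).mulVec (lg A v)) := by
    rw [linearIndependent_iff_card_le_finrank_span, Fintype.card_fin]
    exact hmain.trans hle
  exact h4

/-- If the closure of the group of the points in `End⁰(A) P` has the rank `[End⁰(A) : ℚ]` then `P`
satisfies the condition. -/
lemma full_of_orbit (P : A.Pts) (h : HasZpRank p (closure A (orbit A P)) (finrank ℚ A.End)) :
    Full A (lg A ((1 : ℚ) ⊗ₜ P)) := by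
  apply full_of_basis
  set d := finrank ℚ A.End with hd
  let ω := Module.finBasis ℚ A.End
  have h1 := rank_closure A (orbit A P) h
  rw [linearIndependent_iff_card_le_finrank_span, Fintype.card_fin]
  change d ≤ finrank ℚ_[p] (Submodule.span ℚ_[p] (Set.range fun l : Fin d =>
    (act A (ω l)).mulVec (lg A ((1 : ℚ) ⊗ₜ P))))
  refine h1.le.trans (Submodule.finrank_mono ?_)
  rw [logSpan, Submodule.span_le]
  rintro _ ⟨Q, ⟨δ, hδ⟩, rfl⟩
  have h2 : (A.log.comp A.incl) Q = (act A δ).mulVec (lg A ((1 : ℚ) ⊗ₜ P)) := by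
    have h3 := lg_tmul A Q
    rw [hδ, lg_smul] at h3
    exact h3.symm
  rw [SetLike.mem_coe, h2]
  have h4 : (act A δ).mulVec (lg A ((1 : ℚ) ⊗ₜ P))
      = ∑ l, ((ω.repr δ l : ℚ) : ℚ_[p]) • (act A (ω l)).mulVec (lg A ((1 : ℚ) ⊗ₜ P)) := by
    conv_lhs => rw [← ω.sum_repr δ]
    rw [act_sum]
    exact Finset.sum_congr rfl fun l _ => act_rat_smul A _ _ _
  rw [h4]
  exact Submodule.sum_mem _ fun l _ => Submodule.smul_mem _ _ (Submodule.subset_span ⟨l, rfl⟩)

/-- The coordinates of a relation. -/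
lemma full_coord {v : Fin n → ℚ_[p]} (h : Full A v) {ι : Type*} [Fintype ι] (c : ι → ℚ_[p])
    (δ : ι → A.End) (hc : ∑ i, c i • (act A (δ i)).mulVec v = 0)
    (l : Fin (finrank ℚ A.End)) :
    ∑ i, c i * (((Module.finBasis ℚ A.End).repr (δ i) l : ℚ) : ℚ_[p]) = 0 := by
  let ω := Module.finBasis ℚ A.End
  have h0 := h _ ω ω.linearIndependent
  have h2 : ∑ l, (∑ i, c i * ((ω.repr (δ i) l : ℚ) : ℚ_[p])) • (act A (ω l)).mulVec v = 0 := by
    rw [← hc]
    simp only [Finset.sum_smul]
    rw [Finset.sum_comm]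
    refine Finset.sum_congr rfl fun i _ => ?_
    have h3 : (act A (δ i)).mulVec v
        = ∑ l, ((ω.repr (δ i) l : ℚ) : ℚ_[p]) • (act A (ω l)).mulVec v := by
      conv_lhs => rw [← ω.sum_repr (δ i)]
      rw [act_sum]
      exact Finset.sum_congr rfl fun l _ => act_rat_smul A _ _ _
    rw [h3, Finset.smul_sum]
    exact Finset.sum_congr rfl fun l _ => by rw [smul_smul]
  exact Fintype.linearIndependent_iff.1 h0 _ h2 l

end Pool.Agent.L5helper66.PC
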