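import Pool.Agent.L5helper66.PC.Orbit

/-!
# Subgroups of `End⁰(A) P` for a point `P`
-/

set_option autoImplicit false

open TensorProduct Module Matrix Pool.Agent.E8helper40.PC

namespace Pool.Agent.L5helper66.PC

variable {p : ℕ} [Fact p.Prime] {n : ℕ} (A : SimpleAbelianVariety p n)

/-- The points of `A(ℚ)` which lie in `End⁰(A) L`, up to torsion. -/
noncomputable def saturation (L : AddSubgroup A.Pts) : AddSubgroup A.Pts where
  carrier := {Q | (1 : ℚ) ⊗ₜ[ℤ] Q ∈ endSpan A L}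
  add_mem' := by
    intro a b ha hb
    change (1 : ℚ) ⊗ₜ[ℤ] (a + b) ∈ endSpan A L
    rw [TensorProduct.tmul_add]
    exact Submodule.add_mem _ ha hb
  zero_mem' := by
    change (1 : ℚ) ⊗ₜ[ℤ] (0 : A.Pts) ∈ endSpan A L
    rw [TensorProduct.tmul_zero]
    exact Submodule.zero_mem _
  neg_mem' := by
    intro a ha
    change (1 : ℚ) ⊗ₜ[ℤ] (-a) ∈ endSpan A L
    rw [TensorProduct.tmul_neg]
    exact Submodule.neg_mem _ ha

lemma clear_denominators (z : ℚ ⊗[ℤ] A.Pts) :
    ∃ (N : ℕ) (Q : A.Pts), 0 < N ∧ (N : ℚ) • z = (1 : ℚ) ⊗ₜ[ℤ] Q := by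
  induction z using TensorProduct.induction_on with
  | zero => exact ⟨1, 0, one_pos, by simp⟩
  | tmul q x =>
    refine ⟨q.den, q.num • x, q.pos, ?_⟩
    rw [TensorProduct.smul_tmul', smul_eq_mul, mul_comm, Rat.mul_den_eq_num,
      TensorProduct.tmul_smul, TensorProduct.smul_tmul']
    simp
  | add a b ha hb =>
    obtain ⟨N, Q, hN, hQ⟩ := ha
    obtain ⟨N', Q', hN', hQ'⟩ := hb
    refine ⟨N * N', (N' : ℤ) • Q + (N : ℤ) • Q', Nat.mul_pos hN hN', ?_⟩
    have h1 : (1 : ℚ) ⊗ₜ[ℤ] ((N' : ℤ) • Q + (N : ℤ) • Q')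
        = (N' : ℚ) • ((1 : ℚ) ⊗ₜ[ℤ] Q) + (N : ℚ) • ((1 : ℚ) ⊗ₜ[ℤ] Q') := by
      rw [TensorProduct.tmul_add, TensorProduct.tmul_smul, TensorProduct.tmul_smul]
      simp only [TensorProduct.smul_tmul', zsmul_eq_mul, mul_one, smul_eq_mul, Int.cast_natCast]
    rw [h1, ← hQ, ← hQ', smul_add, smul_smul, smul_smul]
    push_cast
    rw [mul_comm (N : ℚ) (N' : ℚ)]

/-- The action of `ℚ_p ⊗ End⁰(A)` on `ℚ_p ^ n`. -/
noncomputable def psi : ℚ_[p] ⊗[ℚ] A.End →ₐ[ℚ_[p]] Matrix (Fin n) (Fin n) ℚ_[p] :=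
  Algebra.TensorProduct.lift (Algebra.ofId ℚ_[p] (Matrix (Fin n) (Fin n) ℚ_[p]))
    (((Algebra.ofId ℚ ℚ_[p]).mapMatrix).comp A.lie.toRatAlgHom)
    (fun a _ => (show Commute (Algebra.ofId ℚ_[p] (Matrix (Fin n) (Fin n) ℚ_[p]) a) _ from
      Algebra.commutes a _))

lemma psi_tmul (a : ℚ_[p]) (δ : A.End) : psi A (a ⊗ₜ[ℚ] δ) = a • act A δ := by
  have h : psi A (a ⊗ₜ[ℚ] δ) = Algebra.ofId ℚ_[p] (Matrix (Fin n) (Fin n) ℚ_[p]) a
      * (((Algebra.ofId ℚ ℚ_[p]).mapMatrix).comp A.lie.toRatAlgHom) δ :=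
    Algebra.TensorProduct.lift_tmul ..
  rw [h, Algebra.smul_def]
  rfl

/-- The map `x ↦ x w`. -/
noncomputable def phi (w : Fin n → ℚ_[p]) : ℚ_[p] ⊗[ℚ] A.End →ₗ[ℚ_[p]] (Fin n → ℚ_[p]) where
  toFun x := (psi A x).mulVec w
  map_add' x y := by rw [map_add, Matrix.add_mulVec]
  map_smul' a x := by rw [map_smul, Matrix.smul_mulVec, RingHom.id_apply]

lemma phi_mul (w : Fin n → ℚ_[p]) (x y : ℚ_[p] ⊗[ℚ] A.End) :
    phi A w (x * y) = (psi A x).mulVec (phi A w y) := by
  change (psi A (x * y)).mulVec w = (psi A x).mulVec ((psi A y).mulVec w)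
  rw [map_mul, Matrix.mulVec_mulVec]

lemma phi_tmul (w : Fin n → ℚ_[p]) (δ : A.End) : phi A w (1 ⊗ₜ[ℚ] δ) = (act A δ).mulVec w := by
  change (psi A _).mulVec w = _
  rw [psi_tmul, one_smul]

lemma full_of_ker {w : Fin n → ℚ_[p]} (h : LinearMap.ker (phi A w) = ⊥) : Full A w := by
  apply full_of_basis
  have h1 := ((Module.finBasis ℚ A.End).baseChange ℚ_[p]).linearIndependent.map' (phi A w) h
  have h2 : (phi A w : _ → _) ∘ ((Module.finBasis ℚ A.End).baseChange ℚ_[p] : _ → _)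
      = fun l => (act A (Module.finBasis ℚ A.End l)).mulVec w := by
    funext l
    rw [Function.comp_apply, Basis.baseChange_apply, phi_tmul]
  rwa [h2] at h1

/-- If `ℚ_p ⊗ End⁰(A)` is a division algebra all nonzero vectors satisfy the condition. -/
lemma ker_of_division {w : Fin n → ℚ_[p]} (hw : w ≠ 0)
    (hD : ∀ x : ℚ_[p] ⊗[ℚ] A.End, x ≠ 0 → IsUnit x) : LinearMap.ker (phi A w) = ⊥ := by
  rw [LinearMap.ker_eq_bot']
  intro x hx
  by_contra hx0
  obtain ⟨u, rfl⟩ := hD x hx0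
  apply hw
  have h1 := phi_mul A w (↑u⁻¹) (↑u)
  rw [hx, Matrix.mulVec_zero, Units.inv_mul] at h1
  change (psi A 1).mulVec w = 0 at h1
  rwa [map_one, Matrix.one_mulVec] at h1

/-- The kernel of `x ↦ x w` is not a line if `End⁰(A)` is not commutative. -/
lemma ker_ne_one (w : Fin n → ℚ_[p]) (hnc : ∃ x y : A.End, x * y ≠ y * x) :
    finrank ℚ_[p] (LinearMap.ker (phi A w)) ≠ 1 := by
  intro h1
  obtain ⟨j, hj0, hj⟩ := finrank_eq_one_iff'.1 h1
  have hstab : ∀ δ : A.End, ∃ c : ℚ_[p],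
      (1 ⊗ₜ[ℚ] δ : ℚ_[p] ⊗[ℚ] A.End) * (j : ℚ_[p] ⊗[ℚ] A.End) = c • (j : ℚ_[p] ⊗[ℚ] A.End) := by
    intro δ
    have h2 : (1 ⊗ₜ[ℚ] δ : ℚ_[p] ⊗[ℚ] A.End) * (j : ℚ_[p] ⊗[ℚ] A.End)
        ∈ LinearMap.ker (phi A w) := by
      rw [LinearMap.mem_ker, phi_mul, LinearMap.mem_ker.1 j.2, Matrix.mulVec_zero]
    obtain ⟨c, hc⟩ := hj ⟨_, h2⟩
    exact ⟨c, (congrArg Subtype.val hc).symm⟩
  obtain ⟨x, y, hxy⟩ := hnc
  obtain ⟨a, ha⟩ := hstab x
  obtain ⟨b, hb⟩ := hstab y
  have hmul : ∀ δ ε : A.End, (1 ⊗ₜ[ℚ] (δ * ε) : ℚ_[p] ⊗[ℚ] A.End)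
      = (1 ⊗ₜ[ℚ] δ) * (1 ⊗ₜ[ℚ] ε) := by
    intro δ ε
    rw [Algebra.TensorProduct.tmul_mul_tmul, one_mul]
  have h3 : (1 ⊗ₜ[ℚ] (x * y - y * x) : ℚ_[p] ⊗[ℚ] A.End) * (j : ℚ_[p] ⊗[ℚ] A.End) = 0 := by
    rw [TensorProduct.tmul_sub, sub_mul, hmul, hmul, mul_assoc, mul_assoc, ha, hb,
      mul_smul_comm, mul_smul_comm, ha, hb, smul_smul, smul_smul, mul_comm, sub_self]
  have h4 : x * y - y * x ≠ 0 := sub_ne_zero.2 hxy
  have h5 : (j : ℚ_[p] ⊗[ℚ] A.End) = 0 := by
    have h6 : (1 ⊗ₜ[ℚ] (x * y - y * x)⁻¹ : ℚ_[p] ⊗[ℚ] A.End)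
        * ((1 ⊗ₜ[ℚ] (x * y - y * x) : ℚ_[p] ⊗[ℚ] A.End) * (j : ℚ_[p] ⊗[ℚ] A.End))
        = (j : ℚ_[p] ⊗[ℚ] A.End) := by
      rw [← mul_assoc, ← hmul, inv_mul_cancel₀ h4, ← Algebra.TensorProduct.one_def, one_mul]
    rw [h3, mul_zero] at h6
    exact h6.symm
  exact hj0 (Subtype.ext h5)

/-- The span of the logarithms of the points in `End⁰(A) L`. -/
lemma logSpan_saturation {L : AddSubgroup A.Pts} {v : ℚ ⊗[ℤ] A.Pts}
    (hv : endSpan A L = Submodule.span A.End {v}) :
    logSpan A (saturation A L) = LinearMap.range (phi A (lg A v)) := by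
  apply le_antisymm
  · rw [logSpan, Submodule.span_le]
    rintro _ ⟨Q, hQ, rfl⟩
    have hQ' : (1 : ℚ) ⊗ₜ[ℤ] Q ∈ endSpan A L := hQ
    rw [hv, Submodule.mem_span_singleton] at hQ'
    obtain ⟨δ, hδ⟩ := hQ'
    refine ⟨1 ⊗ₜ[ℚ] δ, ?_⟩
    rw [phi_tmul, ← lg_smul, hδ, lg_tmul]
    rfl
  · rintro _ ⟨x, rfl⟩
    induction x using TensorProduct.induction_on with
    | zero =>
      rw [map_zero]
      exact Submodule.zero_mem _
    | tmul a δ =>
      have h1 : a ⊗ₜ[ℚ] δ = a • ((1 : ℚ_[p]) ⊗ₜ[ℚ] δ) := by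
        rw [TensorProduct.smul_tmul', smul_eq_mul, mul_one]
      rw [h1, map_smul, phi_tmul, ← lg_smul]
      refine Submodule.smul_mem _ _ ?_
      obtain ⟨N, Q, hN, hQ⟩ := clear_denominators A (δ • v)
      have h2 : Q ∈ saturation A L := by
        change (1 : ℚ) ⊗ₜ[ℤ] Q ∈ endSpan A L
        rw [hv, ← hQ, ← end_rat_smul]
        refine Submodule.smul_mem _ _ ?_
        exact Submodule.span_le_restrictScalars ℚ A.End {v}
          (Submodule.smul_mem _ _ (Submodule.mem_span_singleton_self v))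
      have h3 : lg A (δ • v) = (N : ℚ_[p])⁻¹ • (A.log.comp A.incl) Q := by
        have h4 := congrArg (lg A) hQ
        rw [map_smul, lg_tmul, rat_smul_eq] at h4
        have h5 : ((N : ℚ) : ℚ_[p]) = (N : ℚ_[p]) := by norm_cast
        rw [h5] at h4
        have hN' : (N : ℚ_[p]) ≠ 0 := by exact_mod_cast hN.ne'
        rw [AddMonoidHom.comp_apply, ← h4, smul_smul, inv_mul_cancel₀ hN', one_smul]
      rw [h3]
      exact Submodule.smul_mem _ _ (Submodule.subset_span ⟨Q, h2, rfl⟩)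
    | add a b ha hb =>
      rw [map_add]
      exact Submodule.add_mem _ ha hb

lemma rank_eq_finrank_ratSpan {L : AddSubgroup A.Pts} (hL : L.FG) :
    finrank ℚ (ratSpan A L) = rank A L := by
  obtain ⟨e, hli, he⟩ := exists_basis A hL
  rw [← he, finrank_span_eq_card hli, Fintype.card_fin]

/-- The logarithms of a basis of `L` span the space of the logarithms. -/
lemma logSpan_eq {L : AddSubgroup A.Pts} {m : ℕ} {e : Fin m → ℚ ⊗[ℤ] A.Pts}
    (he : Submodule.span ℚ (Set.range e) = ratSpan A L) :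
    logSpan A L = Submodule.span ℚ_[p] (Set.range fun i => lg A (e i)) := by
  apply le_antisymm
  · rw [logSpan, Submodule.span_le]
    rintro _ ⟨x, hx, rfl⟩
    have h1 := tmul_mem_ratSpan A hx
    rw [← he] at h1
    have h2 := Submodule.mem_map_of_mem (f := lg A) h1
    rw [lg_tmul, Submodule.map_span, ← Set.range_comp] at h2
    exact Submodule.span_le_restrictScalars ℚ ℚ_[p] _ h2
  · rw [Submodule.span_le]
    rintro _ ⟨i, rfl⟩
    apply lg_mem_logSpan
    rw [← he]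
    exact Submodule.subset_span ⟨i, rfl⟩

/-- If `v` satisfies the condition `Full` then the closure of every subgroup of `End⁰(A) v` has the
expected rank. -/
lemma rank_of_full {L : AddSubgroup A.Pts} (hL : L.FG) {v : ℚ ⊗[ℤ] A.Pts}
    (hv : endSpan A L = Submodule.span A.End {v}) (hfull : Full A (lg A v)) :
    finrank ℚ_[p] (logSpan A L) = rank A L := by
  obtain ⟨e, hli, he⟩ := exists_basis A hL
  have hex : ∀ i, ∃ δ : A.End, δ • v = e i := by
    intro i
    have h1 : e i ∈ endSpan A L := by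
      apply ratSpan_le_endSpan
      rw [← he]
      exact Submodule.subset_span ⟨i, rfl⟩
    rwa [hv, Submodule.mem_span_singleton] at h1
  choose δ hδ using hex
  have hδli : LinearIndependent ℚ δ := by
    rw [Fintype.linearIndependent_iff] at hli ⊢
    intro g hg
    apply hli
    have h2 : ∑ i, g i • e i = (∑ i, g i • δ i) • v := by
      rw [Finset.sum_smul]
      refine Finset.sum_congr rfl fun i _ => ?_
      rw [smul_assoc, hδ]
    rw [h2, hg, zero_smul]
  have h3 := hfull _ δ hδli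
  have h4 : (fun i => lg A (e i)) = fun i => (act A (δ i)).mulVec (lg A v) := by
    funext i
    rw [← hδ, lg_smul]
  rw [logSpan_eq A he, h4, finrank_span_eq_card h3, Fintype.card_fin]

lemma finrank_logSpan_le {L : AddSubgroup A.Pts} (hL : L.FG) :
    finrank ℚ_[p] (logSpan A L) ≤ rank A L := by
  obtain ⟨e, -, he⟩ := exists_basis A hL
  rw [logSpan_eq A he]
  exact (finrank_range_le_card _).trans (Fintype.card_fin _).le

/-- A group with two independent points, in a space of dimension one over `End⁰(A)`, has a closure of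
rank at least two. -/
lemma two_le {L : AddSubgroup A.Pts} {r : ℕ} (hr : HasZpRank p (closure A L) r)
    {v : ℚ ⊗[ℤ] A.Pts} (hv : ∀ x ∈ ratSpan A L, ∃ δ : A.End, x = δ • v)
    {x y : ℚ ⊗[ℤ] A.Pts} (hx : x ∈ ratSpan A L) (hy : y ∈ ratSpan A L)
    (hxy : LinearIndependent ℚ ![x, y]) : 2 ≤ r := by
  have hx0 : x ≠ 0 := hxy.ne_zero 0
  have h0 : r ≠ 0 := by
    rintro rfl
    have h1 := rank_closure A L hr
    have h2 : logSpan A L = ⊥ := Submodule.finrank_eq_zero.1 h1.symm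
    have h3 := lg_mem_logSpan A L hx
    rw [h2, Submodule.mem_bot] at h3
    exact lg_ne_zero A hx0 h3
  have h1 : r ≠ 1 := by
    rintro rfl
    obtain ⟨w, hw⟩ := line_of_rank A hr
    have h2 := pair_indep A hw hx hy hxy
    obtain ⟨δ, hδ⟩ := hv x hx
    obtain ⟨ε, hε⟩ := hv y hy
    have hδ0 : δ ≠ 0 := by
      rintro rfl
      rw [zero_smul] at hδ
      exact hx0 hδ
    rw [LinearIndependent.pair_iff' hx0] at h2
    apply h2 (ε * δ⁻¹)
    rw [hδ, hε, mul_smul, smul_smul δ⁻¹ δ, inv_mul_cancel₀ hδ0, one_smul]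
  omega

/-- Subgroups of `End⁰(A) P`. -/
theorem one_line {L : AddSubgroup A.Pts} (hL : L.FG) (h1 : finrank A.End (endSpan A L) = 1)
    {r R : ℕ} (hr : HasZpRank p (closure A L) r)
    (hR : HasZpRank p (closure A (saturation A L)) R) :
    min (rank A L) 2 ≤ r ∧ r ≤ min (rank A L) R ∧
    ((∀ x : ℚ_[p] ⊗[ℚ] A.End, x ≠ 0 → IsUnit x) → R = finrank ℚ A.End ∧ r = rank A L) ∧
    (finrank ℚ A.End = 4 → (∃ x y : A.End, x * y ≠ y * x) →
      (R = 2 ∨ R = 4) ∧ r = min (rank A L) R) := by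
  obtain ⟨v', hv'0, hv'⟩ := finrank_eq_one_iff'.1 h1
  let v : ℚ ⊗[ℤ] A.Pts := (v' : ℚ ⊗[ℤ] A.Pts)
  have hv0 : v ≠ 0 := fun h => hv'0 (Subtype.ext h)
  have hv : endSpan A L = Submodule.span A.End {v} := by
    apply le_antisymm
    · intro x hx
      obtain ⟨c, hc⟩ := hv' ⟨x, hx⟩
      rw [Submodule.mem_span_singleton]
      exact ⟨c, congrArg Subtype.val hc⟩
    · rw [Submodule.span_le, Set.singleton_subset_iff]
      exact v'.2
  have hr1 := rank_closure A L hr
  have hR1 := rank_closure A _ hR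
  have hLsat : L ≤ saturation A L := fun x hx =>
    ratSpan_le_endSpan A (tmul_mem_ratSpan A hx)
  have hmono : logSpan A L ≤ logSpan A (saturation A L) :=
    Submodule.span_mono (Set.image_mono hLsat)
  have hrR : r ≤ R := by
    rw [hr1, hR1]
    exact Submodule.finrank_mono hmono
  have hrrank : r ≤ rank A L := by
    rw [hr1]
    exact finrank_logSpan_le A hL
  have hline : ∀ x ∈ ratSpan A L, ∃ δ : A.End, x = δ • v := by
    intro x hx
    have h2 := ratSpan_le_endSpan A hx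
    rw [hv, Submodule.mem_span_singleton] at h2
    obtain ⟨δ, hδ⟩ := h2
    exact ⟨δ, hδ.symm⟩
  have hsat : ratSpan A (saturation A L) ≤ (endSpan A L).restrictScalars ℚ := by
    rw [ratSpan, Submodule.span_le]
    rintro _ ⟨x, hx, rfl⟩
    exact hx
  have hlineS : ∀ x ∈ ratSpan A (saturation A L), ∃ δ : A.End, x = δ • v := by
    intro x hx
    have h2 : x ∈ endSpan A L := hsat hx
    rw [hv, Submodule.mem_span_singleton] at h2
    obtain ⟨δ, hδ⟩ := h2
    exact ⟨δ, hδ.symm⟩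
  obtain ⟨e, hli, he⟩ := exists_basis A hL
  have hemem : ∀ i, e i ∈ ratSpan A L := fun i => by
    rw [← he]
    exact Submodule.subset_span ⟨i, rfl⟩
  have hlow : min (rank A L) 2 ≤ r := by
    rcases Nat.lt_or_ge (rank A L) 2 with hlt | hge
    · rcases Nat.eq_zero_or_pos (rank A L) with h0 | hpos
      · omega
      · have hrpos : r ≠ 0 := by
          rintro rfl
          have h2 : logSpan A L = ⊥ := Submodule.finrank_eq_zero.1 hr1.symm
          have h3 := lg_mem_logSpan A L (hemem ⟨0, hpos⟩)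
          rw [h2, Submodule.mem_bot] at h3
          exact lg_ne_zero A (hli.ne_zero _) h3
        omega
    · have hpair : LinearIndependent ℚ ![e ⟨0, by omega⟩, e ⟨1, by omega⟩] := by
        have h2 := hli.comp ![(⟨0, by omega⟩ : Fin (rank A L)), ⟨1, by omega⟩] (by
          intro i j hij
          fin_cases i <;> fin_cases j <;> simp_all)
        have h3 : e ∘ ![(⟨0, by omega⟩ : Fin (rank A L)), ⟨1, by omega⟩]
            = ![e ⟨0, by omega⟩, e ⟨1, by omega⟩] := by
          funext i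
          fin_cases i <;> rfl
        rwa [h3] at h2
      have := two_le A hr hline (hemem _) (hemem _) hpair
      omega
  refine ⟨hlow, le_min hrrank hrR, ?_, ?_⟩
  · intro hD
    have hker := ker_of_division A (lg_ne_zero A hv0) hD
    constructor
    · rw [hR1, logSpan_saturation A hv, LinearMap.finrank_range_of_inj (LinearMap.ker_eq_bot.1 hker),
        Module.finrank_baseChange]
    · rw [hr1]
      exact rank_of_full A hL hv (full_of_ker A hker)
  · intro h4 hnc
    have hrn := LinearMap.finrank_range_add_finrank_ker (phi A (lg A v))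
    rw [Module.finrank_baseChange, h4, ← logSpan_saturation A hv, ← hR1] at hrn
    have hk1 := ker_ne_one A (lg A v) hnc
    -- the saturation has two independent points
    have hR2 : 2 ≤ R := by
      have hnt : ∃ δ : A.End, LinearIndependent ℚ ![v, δ • v] := by
        by_contra hcon
        push Not at hcon
        have h5 : ∀ δ : A.End, ∃ q : ℚ, q • v = δ • v := by
          intro δ
          have h6 := hcon δ
          rw [LinearIndependent.pair_iff' hv0] at h6
          push Not at h6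
          exact h6
        have h7 : finrank ℚ A.End ≤ 1 := by
          apply finrank_le_one (1 : A.End)
          intro δ
          obtain ⟨q, hq⟩ := h5 δ
          refine ⟨q, ?_⟩
          have h8 : (q • (1 : A.End) - δ) • v = 0 := by
            rw [sub_smul, smul_assoc, one_smul, hq, sub_self]
          exact sub_eq_zero.1 ((smul_eq_zero.1 h8).resolve_right hv0)
        omega
      obtain ⟨δ, hδ⟩ := hnt
      have hmemS : ∀ z ∈ endSpan A L, z ∈ ratSpan A (saturation A L) := by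
        intro z hz
        obtain ⟨N, Q, hN, hQ⟩ := clear_denominators A z
        have h5 : Q ∈ saturation A L := by
          change (1 : ℚ) ⊗ₜ[ℤ] Q ∈ endSpan A L
          rw [← hQ]
          exact (endSpan A L).restrictScalars ℚ |>.smul_mem _ hz
        have hN' : (N : ℚ) ≠ 0 := by exact_mod_cast hN.ne'
        have h6 : z = (N : ℚ)⁻¹ • ((1 : ℚ) ⊗ₜ[ℤ] Q) := by
          rw [← hQ, smul_smul, inv_mul_cancel₀ hN', one_smul]
        rw [h6]
        exact Submodule.smul_mem _ _ (tmul_mem_ratSpan A h5)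
      have hvmem : v ∈ endSpan A L := v'.2
      exact two_le A hR hlineS (hmemS _ hvmem) (hmemS _ (Submodule.smul_mem _ δ hvmem)) hδ
    have hcases : finrank ℚ_[p] (LinearMap.ker (phi A (lg A v))) = 0 ∨
        finrank ℚ_[p] (LinearMap.ker (phi A (lg A v))) = 2 := by
      omega
    rcases hcases with hk | hk
    · have hR4 : R = 4 := by omega
      refine ⟨Or.inr hR4, ?_⟩
      have hker : LinearMap.ker (phi A (lg A v)) = ⊥ := Submodule.finrank_eq_zero.1 hk
      have h5 : r = rank A L := by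
        rw [hr1]
        exact rank_of_full A hL hv (full_of_ker A hker)
      omega
    · have hR4 : R = 2 := by omega
      refine ⟨Or.inl hR4, ?_⟩
      omega

end Pool.Agent.L5helper66.PC
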