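import Pool.Agent.L5helper66.PC.Unique

/-!
# Groups with closure of rank one: statements for subgroups of `A(ℚ)`
-/

set_option autoImplicit false

open TensorProduct Module Matrix Pool.Agent.E8helper40.PC

namespace Pool.Agent.L5helper66.PC

variable {p : ℕ} [Fact p.Prime] {n : ℕ} (A : SimpleAbelianVariety p n)

/-- `End⁰(A)` is commutative, or there is a point `P` of `L` such that the closure of the group of
the points of `A(ℚ)` in `End⁰(A) P` has the largest possible `ℤ_p`-rank, `[End⁰(A) : ℚ]`. -/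
def Regular (L : AddSubgroup A.Pts) : Prop :=
  (∀ x y : A.End, x * y = y * x) ∨
    ∃ P ∈ L, HasZpRank p (closure A (orbit A P)) (finrank ℚ A.End)

lemma tmul_mem_ratSpan {L : AddSubgroup A.Pts} {x : A.Pts} (hx : x ∈ L) :
    (1 : ℚ) ⊗ₜ[ℤ] x ∈ ratSpan A L :=
  Submodule.subset_span ⟨x, hx, rfl⟩

lemma exists_basis {L : AddSubgroup A.Pts} (hL : L.FG) :
    ∃ e : Fin (rank A L) → ℚ ⊗[ℤ] A.Pts, LinearIndependent ℚ e ∧
      Submodule.span ℚ (Set.range e) = ratSpan A L := by
  obtain ⟨e, hli, hspan⟩ := exists_family A L hL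
  refine ⟨fun i => (1 : ℚ) ⊗ₜ[ℤ] ((e i : L) : A.Pts), hli, le_antisymm ?_ ?_⟩
  · rw [Submodule.span_le]
    rintro _ ⟨i, rfl⟩
    exact tmul_mem_ratSpan A (e i).2
  · rw [ratSpan, Submodule.span_le]
    rintro _ ⟨x, hx, rfl⟩
    exact hspan x hx

lemma ratSpan_le_endSpan {L : AddSubgroup A.Pts} {x : ℚ ⊗[ℤ] A.Pts} (hx : x ∈ ratSpan A L) :
    x ∈ endSpan A L :=
  Submodule.span_le_restrictScalars ℚ A.End _ hx

lemma endSpan_eq {L : AddSubgroup A.Pts} {m : ℕ} {e : Fin m → ℚ ⊗[ℤ] A.Pts}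
    (he : Submodule.span ℚ (Set.range e) = ratSpan A L) :
    Submodule.span A.End (Set.range e) = endSpan A L := by
  apply le_antisymm
  · rw [Submodule.span_le]
    rintro _ ⟨i, rfl⟩
    apply ratSpan_le_endSpan
    rw [← he]
    exact Submodule.subset_span ⟨i, rfl⟩
  · rw [endSpan, Submodule.span_le]
    rintro _ ⟨x, hx, rfl⟩
    have h1 := tmul_mem_ratSpan A hx
    rw [← he] at h1
    exact Submodule.span_le_restrictScalars ℚ A.End _ h1

lemma rank_pos_of_rank {L : AddSubgroup A.Pts} (hL : L.FG) (h1 : HasZpRank p (closure A L) 1) :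
    0 < rank A L := by
  by_contra h0
  have h2 : rank A L = 0 := Nat.eq_zero_of_not_pos h0
  obtain ⟨e, -, he⟩ := exists_basis A hL
  have h3 : ratSpan A L = ⊥ := by
    rw [← he, Submodule.span_eq_bot]
    rintro _ ⟨i, rfl⟩
    exact absurd i.2 (by omega)
  have h4 : logSpan A L = ⊥ := by
    rw [logSpan, Submodule.span_eq_bot]
    rintro _ ⟨x, hx, rfl⟩
    have h5 := tmul_mem_ratSpan A hx
    rw [h3, Submodule.mem_bot] at h5
    have h6 := lg_tmul A x
    rw [h5, map_zero] at h6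
    exact h6.symm
  have h7 := rank_closure A L h1
  rw [h4, finrank_bot] at h7
  exact one_ne_zero h7

lemma full_of_regular {L : AddSubgroup A.Pts} (hreg : Regular A L) {w : Fin n → ℚ_[p]}
    (hw : Line A L w) (hL : L.FG) (h1 : HasZpRank p (closure A L) 1) : Full A w := by
  have key : ∀ v ∈ ratSpan A L, v ≠ 0 → Full A (lg A v) → Full A w := by
    intro v hv hv0 hfull
    obtain ⟨c, hc⟩ := hw.2 v hv
    have hc0 : c ≠ 0 := by
      rintro rfl
      rw [zero_smul] at hc
      exact lg_ne_zero A hv0 hc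
    have h2 := full_smul A hfull (inv_ne_zero hc0)
    rwa [hc, smul_smul, inv_mul_cancel₀ hc0, one_smul] at h2
  rcases hreg with hcomm | ⟨P, hP, hP1⟩
  · obtain ⟨e, hli, he⟩ := exists_basis A hL
    have hpos := rank_pos_of_rank A hL h1
    have hmem : e ⟨0, hpos⟩ ∈ ratSpan A L := by
      rw [← he]
      exact Submodule.subset_span ⟨_, rfl⟩
    exact key _ hmem (hli.ne_zero _) (full_of_comm A hcomm (hli.ne_zero _))
  · have hfull := full_of_orbit A P hP1
    refine key _ (tmul_mem_ratSpan A hP) ?_ hfull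
    intro h0
    have h3 := hfull 1 (fun _ => 1) (by
      rw [linearIndependent_unique_iff]
      exact one_ne_zero)
    apply h3.ne_zero 0
    rw [h0, map_zero, Matrix.mulVec_zero]

theorem rank_eq_finrank {L : AddSubgroup A.Pts} (hL : L.FG)
    (h1 : HasZpRank p (closure A L) 1) (hreg : Regular A L) :
    rank A L = finrank A.End (endSpan A L) := by
  obtain ⟨w, hw⟩ := line_of_rank A h1
  obtain ⟨e, hli, he⟩ := exists_basis A hL
  have hmem : ∀ i, e i ∈ ratSpan A L := fun i => by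
    rw [← he]
    exact Submodule.subset_span ⟨_, rfl⟩
  choose c hc using fun i => hw.2 (e i) (hmem i)
  have h2 := all_indep A (full_of_regular A hreg hw hL h1) e c hc hli
  rw [← endSpan_eq A he, finrank_span_eq_card h2, Fintype.card_fin]

/-- A subgroup commensurable to `δ L` has a closure of rank one if `L` has. -/
lemma rank_one_of_smul {L L' : AddSubgroup A.Pts} (h1 : HasZpRank p (closure A L) 1)
    {δ : A.End} (hδ : δ ≠ 0) (h : ∀ x, x ∈ ratSpan A L' ↔ ∃ y ∈ ratSpan A L, x = δ • y) :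
    HasZpRank p (closure A L') 1 := by
  obtain ⟨r, hr⟩ := exists_rank (p := p) A.core A.core_open A.coreEquiv (closure A L')
    (AddSubgroup.isClosed_topologicalClosure _)
  have hr1 := rank_closure A L' hr
  obtain ⟨w, hw0, hw⟩ := line_of_rank A h1
  let w' := (act A δ).mulVec w
  have hw' : w' ≠ 0 := by
    intro h0
    apply hw0
    have h2 : (act A δ⁻¹).mulVec w' = w := by
      change (act A δ⁻¹).mulVec ((act A δ).mulVec w) = w
      rw [Matrix.mulVec_mulVec, ← act_mul, inv_mul_cancel₀ hδ, act_one, Matrix.one_mulVec]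
    rw [← h2, h0, Matrix.mulVec_zero]
  have hsub : logSpan A L' ≤ Submodule.span ℚ_[p] {w'} := by
    rw [logSpan, Submodule.span_le]
    rintro _ ⟨x, hx, rfl⟩
    obtain ⟨y, hy, hxy⟩ := (h _).1 (tmul_mem_ratSpan A hx)
    obtain ⟨c, hc⟩ := hw y hy
    have h3 := lg_tmul A x
    rw [hxy, lg_smul, hc, Matrix.mulVec_smul] at h3
    rw [SetLike.mem_coe, Submodule.mem_span_singleton]
    exact ⟨c, h3⟩
  have hle : r ≤ 1 := by
    rw [hr1]
    refine (Submodule.finrank_mono hsub).trans ?_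
    rw [finrank_span_singleton hw']
  have hne : r ≠ 0 := by
    rintro rfl
    -- some point of `L` has a nonzero logarithm
    have h4 : logSpan A L' = ⊥ := Submodule.finrank_eq_zero.1 hr1.symm
    have h5 : logSpan A L ≠ ⊥ := by
      intro h6
      have h7 := rank_closure A L h1
      rw [h6, finrank_bot] at h7
      exact one_ne_zero h7
    apply h5
    rw [logSpan, Submodule.span_eq_bot]
    rintro _ ⟨x, hx, rfl⟩
    have h8 : δ • ((1 : ℚ) ⊗ₜ[ℤ] x) ∈ ratSpan A L' :=
      (h _).2 ⟨_, tmul_mem_ratSpan A hx, rfl⟩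
    have h9 := lg_mem_logSpan A L' h8
    rw [h4, Submodule.mem_bot] at h9
    have h10 : δ • ((1 : ℚ) ⊗ₜ[ℤ] x) = 0 := by
      by_contra h11
      exact lg_ne_zero A h11 h9
    have h12 : (1 : ℚ) ⊗ₜ[ℤ] x = 0 := (smul_eq_zero.1 h10).resolve_left hδ
    have h13 := lg_tmul A x
    rw [h12, map_zero] at h13
    exact h13.symm
  have hr1' : r = 1 := by omega
  rwa [hr1'] at hr

theorem orbit_unique {L L' : AddSubgroup A.Pts} (hL : L.FG) (hL' : L'.FG)
    (h1 : HasZpRank p (closure A L) 1) (h1' : HasZpRank p (closure A L') 1)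
    (hreg : Regular A L) (hle : endSpan A L' ≤ endSpan A L) :
    rank A L' ≤ rank A L ∧ (rank A L' = rank A L → ∃ δ : A.End, δ ≠ 0 ∧
      ∀ x, x ∈ ratSpan A L' ↔ ∃ y ∈ ratSpan A L, x = δ • y) := by
  obtain ⟨w, hw⟩ := line_of_rank A h1
  obtain ⟨w', hw'⟩ := line_of_rank A h1'
  obtain ⟨e, hli, he⟩ := exists_basis A hL
  obtain ⟨e', hli', he'⟩ := exists_basis A hL'
  have hmem : ∀ i, e i ∈ ratSpan A L := fun i => by
    rw [← he]
    exact Submodule.subset_span ⟨_, rfl⟩
  have hmem' : ∀ i, e' i ∈ ratSpan A L' := fun i => by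
    rw [← he']
    exact Submodule.subset_span ⟨_, rfl⟩
  choose c hc using fun i => hw.2 (e i) (hmem i)
  choose c' hc' using fun i => hw'.2 (e' i) (hmem' i)
  have hfull := full_of_regular A hreg hw hL h1
  have hex : ∀ i, ∃ a : Fin (rank A L) → A.End, ∑ j, a j • e j = e' i := by
    intro i
    have h2 := hle (ratSpan_le_endSpan A (hmem' i))
    rw [← endSpan_eq A he] at h2
    exact (Submodule.mem_span_range_iff_exists_fun A.End).1 h2
  choose a ha using hex
  obtain ⟨h2, h3⟩ := compare e c e' c' w' a hfull hw.1 hc hc' (fun i => (ha i).symm) hli hli'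
    (rank_pos_of_rank A hL' h1')
  refine ⟨h2, fun heq => ?_⟩
  obtain ⟨δ, hδ, hy⟩ := h3 heq
  refine ⟨δ, hδ, ?_⟩
  let μ : ℚ ⊗[ℤ] A.Pts →ₗ[ℚ] ℚ ⊗[ℤ] A.Pts :=
    { toFun := fun v => δ • v
      map_add' := fun v w => smul_add δ v w
      map_smul' := fun q v => end_rat_smul A δ q v }
  have hfin : FiniteDimensional ℚ (ratSpan A L) := by
    rw [← he]
    exact FiniteDimensional.span_of_finite ℚ (Set.finite_range e)
  have hle2 : ratSpan A L' ≤ (ratSpan A L).map μ := by
    rw [← he', Submodule.span_le]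
    rintro _ ⟨i, rfl⟩
    obtain ⟨y, hy1, hy2⟩ := hy i
    rw [he] at hy1
    exact ⟨y, hy1, hy2.symm⟩
  have hf1 : finrank ℚ (ratSpan A L) = rank A L := by
    rw [← he, finrank_span_eq_card hli, Fintype.card_fin]
  have hf2 : finrank ℚ (ratSpan A L') = rank A L' := by
    rw [← he', finrank_span_eq_card hli', Fintype.card_fin]
  have heq2 : ratSpan A L' = (ratSpan A L).map μ := by
    apply Submodule.eq_of_le_of_finrank_le hle2
    refine (Submodule.finrank_map_le μ _).trans ?_
    rw [hf1, hf2, heq]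
  intro x
  rw [heq2, Submodule.mem_map]
  constructor
  · rintro ⟨y, hy1, hy2⟩
    exact ⟨y, hy1, hy2.symm⟩
  · rintro ⟨y, hy1, hy2⟩
    exact ⟨y, hy1, hy2.symm⟩

end Pool.Agent.L5helper66.PC
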