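import Mathlib

/-!
# Counting integer matrices of rank one with four rows
-/

set_option autoImplicit false

open Finset

namespace Pool.Agent.L5helper66.PC

/-- An integer matrix whose minors of order two vanish is a product of a column and a row. -/
lemma exists_factor {m d : ℕ} (a : Fin m → Fin d → ℤ)
    (h : ∀ i j k l, a i k * a j l = a i l * a j k) (ha : a ≠ 0) :
    ∃ (ρ : Fin m → ℤ) (v : Fin d → ℤ), v ≠ 0 ∧ a = fun i l => ρ i * v l := by
  obtain ⟨i₀, hi₀⟩ := Function.ne_iff.1 ha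
  have hrow : a i₀ ≠ 0 := hi₀
  obtain ⟨l₀, hl₀⟩ := Function.ne_iff.1 hrow
  let I : Ideal ℤ := Ideal.span (Set.range (a i₀))
  let g : ℤ := Submodule.IsPrincipal.generator I
  have hg : ∀ l, ∃ v : ℤ, a i₀ l = g * v := by
    intro l
    have h1 : a i₀ l ∈ I := Ideal.subset_span ⟨l, rfl⟩
    obtain ⟨v, hv⟩ := (Submodule.IsPrincipal.mem_iff_eq_smul_generator I).1 h1
    exact ⟨v, by rw [hv, smul_eq_mul, mul_comm]⟩
  choose v hv using hg
  have hgI : g ∈ I := Submodule.IsPrincipal.generator_mem I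
  obtain ⟨u, hu⟩ := (Ideal.mem_span_range_iff_exists_fun).1 hgI
  have hg0 : g ≠ 0 := by
    intro h0
    apply hl₀
    rw [hv, h0, zero_mul]
    rfl
  have huv : ∑ l, u l * v l = 1 := by
    have h1 : g * ∑ l, u l * v l = g * 1 := by
      rw [mul_one, Finset.mul_sum]
      conv_rhs => rw [← hu]
      refine Finset.sum_congr rfl fun l _ => ?_
      rw [hv]
      ring
    exact mul_left_cancel₀ hg0 h1
  have hcross : ∀ i l m, a i l * v m = a i m * v l := by
    intro i l m
    have h1 := h i i₀ l m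
    rw [hv, hv] at h1
    have h2 : g * (a i l * v m) = g * (a i m * v l) := by linear_combination h1
    exact mul_left_cancel₀ hg0 h2
  refine ⟨fun i => ∑ m, u m * a i m, v, ?_, ?_⟩
  · intro h0
    apply hl₀
    rw [hv, h0]
    simp
  · funext i l
    change a i l = (∑ m, u m * a i m) * v l
    rw [Finset.sum_mul]
    have h1 : ∀ m, u m * a i m * v l = a i l * (u m * v m) := by
      intro m
      linear_combination (u m) * (-(hcross i l m))
    simp only [h1]
    rw [← Finset.mul_sum, huv, mul_one]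

/-- The integer vectors with entries at most `X`. -/
noncomputable def ball (d X : ℕ) : Finset (Fin d → ℤ) :=
  Fintype.piFinset fun _ => Finset.Icc (-(X : ℤ)) X

lemma mem_ball {d X : ℕ} {v : Fin d → ℤ} : v ∈ ball d X ↔ ∀ l, (v l).natAbs ≤ X := by
  rw [ball, Fintype.mem_piFinset]
  refine forall_congr' fun l => ?_
  rw [Finset.mem_Icc]
  omega

lemma card_ball (d X : ℕ) : (ball d X).card = (2 * X + 1) ^ d := by
  rw [ball, Fintype.card_piFinset, Finset.prod_const, Int.card_Icc, Finset.card_univ,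
    Fintype.card_fin]
  congr 1
  omega

/-- The integer vectors with largest entry `T`. -/
noncomputable def sphere (d T : ℕ) : Finset (Fin d → ℤ) :=
  (ball d T).filter fun v => ∃ l, (v l).natAbs = T

lemma card_sphere (d T : ℕ) : (sphere d T).card ≤ 2 * d * (2 * T + 1) ^ (d - 1) := by
  classical
  let U : Fin d × Bool → Finset (Fin d → ℤ) := fun q =>
    Fintype.piFinset fun j => if j = q.1 then {if q.2 then (T : ℤ) else -(T : ℤ)}
      else Finset.Icc (-(T : ℤ)) T
  have hsub : sphere d T ⊆ Finset.univ.biUnion U := by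
    intro v hv
    rw [sphere, Finset.mem_filter, mem_ball] at hv
    obtain ⟨hb, l, hl⟩ := hv
    rw [Finset.mem_biUnion]
    refine ⟨(l, decide (0 ≤ v l)), Finset.mem_univ _, ?_⟩
    rw [Fintype.mem_piFinset]
    intro j
    by_cases hj : j = l
    · subst hj
      simp only [if_true, Finset.mem_singleton, decide_eq_true_eq]
      split_ifs <;> omega
    · simp only [hj, if_false, Finset.mem_Icc]
      have := hb j
      omega
  have hU : ∀ q, (U q).card = (2 * T + 1) ^ (d - 1) := by
    rintro ⟨l, b⟩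
    simp only [U]
    rw [Fintype.card_piFinset]
    have h1 : ∀ j, (if j = l then ({if b then (T : ℤ) else -(T : ℤ)} : Finset ℤ)
        else Finset.Icc (-(T : ℤ)) T).card = if j = l then 1 else 2 * T + 1 := by
      intro j
      split_ifs
      · simp
      · simp
      · rw [Int.card_Icc]
        omega
    simp only [h1]
    rw [Finset.prod_ite, Finset.prod_const_one, one_mul, Finset.prod_const]
    congr 1
    rw [Finset.filter_ne' Finset.univ l, Finset.card_erase_of_mem (Finset.mem_univ _),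
      Finset.card_univ, Fintype.card_fin]
  calc (sphere d T).card ≤ (Finset.univ.biUnion U).card := Finset.card_le_card hsub
    _ ≤ ∑ q : Fin d × Bool, (U q).card := Finset.card_biUnion_le
    _ = 2 * d * (2 * T + 1) ^ (d - 1) := by
      simp only [hU]
      rw [Finset.sum_const, Finset.card_univ, Fintype.card_prod, Fintype.card_fin,
        Fintype.card_bool, smul_eq_mul]
      ring

/-- The number of the nonzero integer matrices of rank one with four rows and `d` columns and entries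
of absolute value at most `X`. -/
theorem card_rankOne {d : ℕ} (hd : 1 ≤ d) {X : ℕ} (hX : 1 ≤ X) (S : Finset (Fin 4 → Fin d → ℤ))
    (hS : ∀ a ∈ S, a ≠ 0 ∧ (∀ i l, (a i l).natAbs ≤ X) ∧
      ∀ i j k l, a i k * a j l = a i l * a j k) :
    (S.card : ℝ) ≤ 162 * d * 3 ^ (d - 1) * (X : ℝ) ^ (max 4 d) * (1 + Real.log X) := by
  classical
  let U : ℕ → Finset ((Fin 4 → ℤ) × (Fin d → ℤ)) := fun T => ball 4 (X / T) ×ˢ sphere d T
  let φ : (Fin 4 → ℤ) × (Fin d → ℤ) → (Fin 4 → Fin d → ℤ) := fun q i l => q.1 i * q.2 l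
  have hsub : S ⊆ ((Finset.Icc 1 X).biUnion U).image φ := by
    intro a ha
    obtain ⟨h0, hb, hr⟩ := hS a ha
    obtain ⟨ρ, v, hv, hav⟩ := exists_factor a hr h0
    rw [Finset.mem_image]
    refine ⟨(ρ, v), ?_, hav.symm⟩
    -- the largest entry of `v`
    have hne : (Finset.univ : Finset (Fin d)).Nonempty := ⟨⟨0, hd⟩, Finset.mem_univ _⟩
    obtain ⟨l₀, -, hl₀⟩ := Finset.exists_max_image Finset.univ (fun l => (v l).natAbs) hne
    set T := (v l₀).natAbs with hT
    have hTpos : 1 ≤ T := by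
      by_contra hlt
      apply hv
      funext l
      have := hl₀ l (Finset.mem_univ _)
      rw [Pi.zero_apply]
      omega
    have hρ : ∀ i, (ρ i).natAbs ≤ X / T := by
      intro i
      rw [Nat.le_div_iff_mul_le hTpos, hT, ← Int.natAbs_mul]
      have := hb i l₀
      rwa [hav] at this
    have hTX : T ≤ X := by
      -- some `ρ i` is not zero
      have hρ0 : ∃ i, ρ i ≠ 0 := by
        by_contra hcon
        push Not at hcon
        apply h0
        rw [hav]
        funext i l
        simp [hcon i]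
      obtain ⟨i, hi⟩ := hρ0
      have h1 := hb i l₀
      rw [hav] at h1
      change (ρ i * v l₀).natAbs ≤ X at h1
      rw [Int.natAbs_mul] at h1
      have h2 : 1 ≤ (ρ i).natAbs := Int.natAbs_pos.2 hi
      calc T = 1 * T := (one_mul _).symm
        _ ≤ (ρ i).natAbs * T := Nat.mul_le_mul_right _ h2
        _ ≤ X := h1
    rw [Finset.mem_biUnion]
    refine ⟨T, Finset.mem_Icc.2 ⟨hTpos, hTX⟩, ?_⟩
    rw [Finset.mem_product]
    refine ⟨mem_ball.2 hρ, ?_⟩
    rw [sphere, Finset.mem_filter, mem_ball]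
    exact ⟨fun l => hl₀ l (Finset.mem_univ _), l₀, rfl⟩
  have hterm : ∀ T ∈ Finset.Icc 1 X, ((U T).card : ℝ)
      ≤ 162 * d * 3 ^ (d - 1) * (X : ℝ) ^ (max 4 d) * (1 / (T : ℝ)) := by
    intro T hT
    rw [Finset.mem_Icc] at hT
    have hT1 : (1 : ℝ) ≤ T := by exact_mod_cast hT.1
    have hT0 : (0 : ℝ) < T := by linarith
    have hTX : (T : ℝ) ≤ X := by exact_mod_cast hT.2
    have hX0 : (0 : ℝ) < X := by linarith
    have h1 : ((U T).card : ℝ) ≤ (3 * (X / T : ℝ)) ^ 4 * (2 * d * (3 * T) ^ (d - 1)) := by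
      rw [Finset.card_product, card_ball]
      push_cast
      have h2 : (2 * ((X / T : ℕ) : ℝ) + 1) ≤ 3 * (X / T : ℝ) := by
        have h3 : ((X / T : ℕ) : ℝ) ≤ (X / T : ℝ) := Nat.cast_div_le
        have h4 : (1 : ℝ) ≤ X / T := by
          rw [le_div_iff₀ hT0]
          linarith
        linarith
      have h5 : ((sphere d T).card : ℝ) ≤ 2 * d * (3 * T) ^ (d - 1) := by
        have h6 : ((sphere d T).card : ℝ) ≤ 2 * d * (2 * T + 1) ^ (d - 1) := by
          exact_mod_cast card_sphere d T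
        refine h6.trans ?_
        gcongr
        linarith
      gcongr
    refine h1.trans ?_
    have h7 : (X : ℝ) ^ 4 * (T : ℝ) ^ (d - 1) / (T : ℝ) ^ 4 ≤ (X : ℝ) ^ (max 4 d) * (1 / (T : ℝ)) := by
      rcases le_total d 4 with h4 | h4
      · rw [max_eq_left h4, div_le_iff₀ (by positivity)]
        have h8 : (T : ℝ) ^ (d - 1) ≤ (T : ℝ) ^ 3 := pow_le_pow_right₀ hT1 (by omega)
        have h9 : (X : ℝ) ^ 4 * (1 / (T : ℝ)) * (T : ℝ) ^ 4 = (X : ℝ) ^ 4 * (T : ℝ) ^ 3 := by
          field_simp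
        rw [h9]
        gcongr
      · rw [max_eq_right h4, div_le_iff₀ (by positivity)]
        have h8 : (X : ℝ) ^ d * (1 / (T : ℝ)) * (T : ℝ) ^ 4
            = (X : ℝ) ^ 4 * ((X : ℝ) ^ (d - 4) * (T : ℝ) ^ 3) := by
          have h9 : (X : ℝ) ^ d = (X : ℝ) ^ 4 * (X : ℝ) ^ (d - 4) := by
            rw [← pow_add]
            congr 1
            omega
          rw [h9]
          field_simp
        rw [h8]
        have h10 : (T : ℝ) ^ (d - 1) = (T : ℝ) ^ (d - 4) * (T : ℝ) ^ 3 := by
          rw [← pow_add]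
          congr 1
          omega
        rw [h10]
        gcongr
    calc (3 * (X / T : ℝ)) ^ 4 * (2 * d * (3 * T) ^ (d - 1))
        = 162 * d * 3 ^ (d - 1) * ((X : ℝ) ^ 4 * (T : ℝ) ^ (d - 1) / (T : ℝ) ^ 4) := by
          rw [mul_pow, mul_pow, div_pow]
          ring
      _ ≤ 162 * d * 3 ^ (d - 1) * ((X : ℝ) ^ (max 4 d) * (1 / (T : ℝ))) := by gcongr
      _ = _ := by ring
  have hharm : ∑ T ∈ Finset.Icc 1 X, (1 / (T : ℝ)) ≤ 1 + Real.log X := by
    have h1 := harmonic_le_one_add_log X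
    rw [harmonic_eq_sum_Icc] at h1
    push_cast at h1
    simpa [one_div] using h1
  calc (S.card : ℝ) ≤ ((((Finset.Icc 1 X).biUnion U).image φ).card : ℝ) := by
        exact_mod_cast Finset.card_le_card hsub
    _ ≤ ((((Finset.Icc 1 X).biUnion U)).card : ℝ) := by exact_mod_cast Finset.card_image_le
    _ ≤ ((∑ T ∈ Finset.Icc 1 X, (U T).card : ℕ) : ℝ) := by exact_mod_cast Finset.card_biUnion_le
    _ = ∑ T ∈ Finset.Icc 1 X, ((U T).card : ℝ) := by push_cast; rfl
    _ ≤ ∑ T ∈ Finset.Icc 1 X, 162 * d * 3 ^ (d - 1) * (X : ℝ) ^ (max 4 d) * (1 / (T : ℝ)) :=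
        Finset.sum_le_sum hterm
    _ = 162 * d * 3 ^ (d - 1) * (X : ℝ) ^ (max 4 d) * ∑ T ∈ Finset.Icc 1 X, (1 / (T : ℝ)) := by
        rw [Finset.mul_sum]
    _ ≤ _ := by gcongr

end Pool.Agent.L5helper66.PC
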