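import Pool.Agent.L5helper66.PC.OneLine
import Pool.Agent.L5helper66.PC.RankOneCount
import Pool.Agent.E8helper14.PA.Fin

/-!
# The number of the pairs of points for which the answer is no
-/

set_option autoImplicit false

open TensorProduct Module Matrix Pool.Agent.E8helper40.PC Pool.Agent.E8helper14.PA

namespace Pool.Agent.L5helper66.PC

variable {p : ℕ} [Fact p.Prime] {n : ℕ} (A : SimpleAbelianVariety p n)

/-- The class of `∑ k_j e_j` in `A(ℚ) ⊗ ℚ`. -/
noncomputable def vec {N : ℕ} (e : Fin N → A.Pts) (k : Fin N → ℤ) : ℚ ⊗[ℤ] A.Pts :=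
  (1 : ℚ) ⊗ₜ[ℤ] (∑ j, k j • e j)

open Classical in
/-- The number of the pairs of integer vectors `k_0`, `k_1` with entries of absolute value at most `H`
such that the points `x_i = ∑_j k_ij e_j` are independent, but the closure of the group generated by
`x_0 + t_0` and `x_1 + t_1`, for some torsion points `t_0`, `t_1`, does not have the `ℤ_p`-rank two. -/
noncomputable def exceptions {N : ℕ} (e : Fin N → A.Pts) (H : ℕ) : ℕ :=
  ((box 2 N H).filter fun k => LinearIndependent ℚ (fun i => vec A e (k i)) ∧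
    ¬ GoodTuple A e k).card

lemma vec_eq {N : ℕ} (e : Fin N → A.Pts) (k : Fin N → ℤ) :
    vec A e k = ∑ j, (k j : ℚ) • ((1 : ℚ) ⊗ₜ[ℤ] e j) := by
  rw [vec, TensorProduct.tmul_sum]
  refine Finset.sum_congr rfl fun j _ => ?_
  rw [TensorProduct.tmul_smul, TensorProduct.smul_tmul', TensorProduct.smul_tmul']
  simp

lemma tmul_torsion {t : A.Pts} (ht : IsOfFinAddOrder t) : (1 : ℚ) ⊗ₜ[ℤ] t = 0 := by
  by_contra h
  apply lg_ne_zero A h
  rw [lg_tmul]
  exact log_of_torsion A ht

lemma ratSpan_tuple {N : ℕ} (e : Fin N → A.Pts) (t : Fin 2 → A.Pts)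
    (ht : ∀ i, IsOfFinAddOrder (t i)) (k : Fin 2 → Fin N → ℤ) :
    ratSpan A (tupleGroup A e t k) = Submodule.span ℚ (Set.range fun i => vec A e (k i)) := by
  have hgen : ∀ i, (1 : ℚ) ⊗ₜ[ℤ] (∑ j, k i j • e j + t i) = vec A e (k i) := by
    intro i
    rw [TensorProduct.tmul_add, tmul_torsion A (ht i), add_zero]
    rfl
  apply le_antisymm
  · rw [ratSpan, Submodule.span_le]
    rintro _ ⟨x, hx, rfl⟩
    change (1 : ℚ) ⊗ₜ[ℤ] x ∈ _
    induction hx using AddSubgroup.closure_induction with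
    | mem x hx =>
      obtain ⟨i, rfl⟩ := hx
      rw [hgen]
      exact Submodule.subset_span ⟨i, rfl⟩
    | zero =>
      rw [TensorProduct.tmul_zero]
      exact Submodule.zero_mem _
    | add x y _ _ hx hy =>
      rw [TensorProduct.tmul_add]
      exact Submodule.add_mem _ hx hy
    | neg x _ hx =>
      rw [TensorProduct.tmul_neg]
      exact Submodule.neg_mem _ hx
  · rw [Submodule.span_le]
    rintro _ ⟨i, rfl⟩
    change vec A e (k i) ∈ ratSpan A (tupleGroup A e t k)
    rw [← hgen]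
    exact tmul_mem_ratSpan A (AddSubgroup.subset_closure ⟨i, rfl⟩)

lemma tuple_fg {N : ℕ} (e : Fin N → A.Pts) (t : Fin 2 → A.Pts) (k : Fin 2 → Fin N → ℤ) :
    (tupleGroup A e t k).FG := by
  exact (AddSubgroup.fg_iff _).2
    ⟨Set.range fun i => ∑ j, k i j • e j + t i, rfl, Set.finite_range _⟩

lemma vec_mem_hull {N : ℕ} (e : Fin N → A.Pts) (k : Fin N → ℤ) :
    vec A e k ∈ endSpan A (hull A e) := by
  refine Submodule.subset_span ⟨∑ j, k j • e j, ?_, rfl⟩
  have h : ∀ j, e j ∈ hull A e := fun j => AddSubgroup.subset_closure ⟨j, rfl⟩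
  exact AddSubgroup.sum_mem _ fun j _ => AddSubgroup.zsmul_mem _ (h j) _

/-- An exception gives a group with a closure of rank one. -/
lemma exception_rank {N : ℕ} (e : Fin N → A.Pts) (k : Fin 2 → Fin N → ℤ)
    (hk : LinearIndependent ℚ (fun i => vec A e (k i))) (hbad : ¬ GoodTuple A e k) :
    ∃ L : AddSubgroup A.Pts, L.FG ∧ HasZpRank p (closure A L) 1 ∧ rank A L = 2 ∧
      ratSpan A L = Submodule.span ℚ (Set.range fun i => vec A e (k i)) ∧
      endSpan A L ≤ endSpan A (hull A e) := by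
  rw [GoodTuple] at hbad
  push Not at hbad
  obtain ⟨t, ht, hbad⟩ := hbad
  have hfg := tuple_fg A e t k
  have hrs := ratSpan_tuple A e t ht k
  have hrank : rank A (tupleGroup A e t k) = 2 := by
    rw [← rank_eq_finrank_ratSpan A hfg, hrs, finrank_span_eq_card hk, Fintype.card_fin]
  have h1 := hasZpRank_logSpan A (tupleGroup A e t k)
  set r := finrank ℚ_[p] (logSpan A (tupleGroup A e t k)) with hr
  have h2 : r ≤ 2 := hrank ▸ finrank_logSpan_le A hfg
  have h3 : r ≠ 2 := by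
    intro h
    rw [h] at h1
    exact hbad h1
  have h4 : r ≠ 0 := by
    intro h
    have h5 : logSpan A (tupleGroup A e t k) = ⊥ := Submodule.finrank_eq_zero.1 h
    have h6 : vec A e (k 0) ∈ ratSpan A (tupleGroup A e t k) := by
      rw [hrs]
      exact Submodule.subset_span ⟨0, rfl⟩
    have h7 := lg_mem_logSpan A _ h6
    rw [h5, Submodule.mem_bot] at h7
    exact lg_ne_zero A (hk.ne_zero 0) h7
  have h5 : r = 1 := by omega
  rw [h5] at h1
  refine ⟨tupleGroup A e t k, hfg, h1, hrank, hrs, ?_⟩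
  rw [endSpan, Submodule.span_le]
  rintro _ ⟨x, hx, rfl⟩
  have h6 : (1 : ℚ) ⊗ₜ[ℤ] x ∈ ratSpan A (tupleGroup A e t k) := tmul_mem_ratSpan A hx
  rw [hrs] at h6
  have h7 : Submodule.span ℚ (Set.range fun i => vec A e (k i))
      ≤ (endSpan A (hull A e)).restrictScalars ℚ := by
    rw [Submodule.span_le]
    rintro _ ⟨i, rfl⟩
    exact vec_mem_hull A e (k i)
  exact h7 h6

/-- The group of one exception determines all others up to a factor. -/
structure Frame {N : ℕ} (e : Fin N → A.Pts) where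
  /-- a basis of `L ⊗ ℚ` -/
  g : Fin 2 → ℚ ⊗[ℤ] A.Pts
  indep : LinearIndependent ℚ g
  endIndep : LinearIndependent A.End g
  mem : ∀ i, g i ∈ endSpan A (hull A e)
  span : endSpan A (hull A e) ≤ Submodule.span A.End (Set.range g)
  /-- the points of an exception are in `δ (L ⊗ ℚ)` -/
  all : ∀ k : Fin 2 → Fin N → ℤ, LinearIndependent ℚ (fun i => vec A e (k i)) →
    ¬ GoodTuple A e k → ∃ δ : A.End, ∀ i, ∃ q : Fin 2 → ℚ, vec A e (k i) = δ • ∑ j, q j • g j
  /-- the groups commensurable to `δ L` are exceptions -/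
  conv : ∀ L' : AddSubgroup A.Pts, ∀ δ : A.End, δ ≠ 0 →
    (∀ x, x ∈ ratSpan A L' ↔ ∃ y ∈ Submodule.span ℚ (Set.range g), x = δ • y) →
    HasZpRank p (closure A L') 1

lemma exists_frame (hcomm : ∀ x y : A.End, x * y = y * x) {N : ℕ} (e : Fin N → A.Pts)
    (hdim : finrank A.End (endSpan A (hull A e)) = 2) (k₀ : Fin 2 → Fin N → ℤ)
    (hk₀ : LinearIndependent ℚ (fun i => vec A e (k₀ i))) (hbad₀ : ¬ GoodTuple A e k₀) :
    Nonempty (Frame A e) := by
  obtain ⟨L₀, hfg₀, h1₀, hrank₀, hrs₀, hle₀⟩ := exception_rank A e k₀ hk₀ hbad₀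
  have hreg : Regular A L₀ := Or.inl hcomm
  have hfr := rank_eq_finrank A hfg₀ h1₀ hreg
  have hfin : FiniteDimensional A.End (endSpan A (hull A e)) :=
    FiniteDimensional.of_finrank_pos (by omega)
  have heq : endSpan A L₀ = endSpan A (hull A e) :=
    Submodule.eq_of_le_of_finrank_eq hle₀ (by omega)
  have hspan : Submodule.span A.End (Set.range fun i => vec A e (k₀ i)) = endSpan A L₀ :=
    endSpan_eq A hrs₀.symm
  have hmem : ∀ i, vec A e (k₀ i) ∈ ratSpan A L₀ := fun i => by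
    rw [hrs₀]
    exact Submodule.subset_span ⟨i, rfl⟩
  obtain ⟨w, hw⟩ := line_of_rank A h1₀
  choose c hc using fun i => hw.2 _ (hmem i)
  have hEnd := all_indep A (full_of_regular A hreg hw hfg₀ h1₀) _ c hc hk₀
  refine ⟨⟨fun i => vec A e (k₀ i), hk₀, hEnd, fun i => vec_mem_hull A e (k₀ i), ?_, ?_, ?_⟩⟩
  · rw [hspan, heq]
  · intro k hk hbad
    obtain ⟨L, hfg, h1, hrank, hrs, hle⟩ := exception_rank A e k hk hbad
    obtain ⟨-, h2⟩ := orbit_unique A hfg₀ hfg h1₀ h1 hreg (heq ▸ hle)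
    obtain ⟨δ, -, hδ⟩ := h2 (by rw [hrank, hrank₀])
    refine ⟨δ, fun i => ?_⟩
    have h3 : vec A e (k i) ∈ ratSpan A L := by
      rw [hrs]
      exact Submodule.subset_span ⟨i, rfl⟩
    obtain ⟨y, hy, hxy⟩ := (hδ _).1 h3
    rw [hrs₀] at hy
    obtain ⟨q, hq⟩ := (Submodule.mem_span_range_iff_exists_fun ℚ).1 hy
    exact ⟨q, by rw [hxy, ← hq]⟩
  · intro L' δ hδ h
    apply rank_one_of_smul A h1₀ hδ
    intro x
    rw [h x, hrs₀]

section Upper

variable {N : ℕ} (e : Fin N → A.Pts)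

/-- Common denominators. -/
lemma exists_common_denominator {ι : Type*} [Fintype ι] (q : ι → ℚ) :
    ∃ (M : ℕ) (c : ι → ℤ), 0 < M ∧ ∀ i, (M : ℚ) * q i = c i := by
  classical
  refine ⟨∏ i, (q i).den, fun i => (∏ j ∈ Finset.univ.erase i, ((q j).den : ℤ)) * (q i).num,
    Finset.prod_pos fun i _ => (q i).pos, fun i => ?_⟩
  rw [← Finset.mul_prod_erase Finset.univ _ (Finset.mem_univ i)]
  push_cast
  have h := Rat.mul_den_eq_num (q i)
  linear_combination (∏ j ∈ Finset.univ.erase i, ((q j).den : ℚ)) * h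

/-- Integer coordinates: every combination of the `e_j` with coefficients `k_j` is, after
multiplication by `M`, the sum of the `(∑_l a_il δ_l) g_i` with `a = ∑ k_j c_j`. -/
lemma exists_coordinates (F : Frame A e) :
    ∃ (M : ℕ) (c : Fin N → Fin 2 → Fin (finrank ℚ A.End) → ℤ), 0 < M ∧
      ∀ k : Fin N → ℤ, (M : ℚ) • vec A e k = ∑ i,
        (∑ l, ((∑ j, k j * c j i l : ℤ) : ℚ) • Module.finBasis ℚ A.End l) • F.g i := by
  have h1 : ∀ j, ∃ β : Fin 2 → A.End, ∑ i, β i • F.g i = (1 : ℚ) ⊗ₜ[ℤ] e j := by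
    intro j
    have h2 : (1 : ℚ) ⊗ₜ[ℤ] e j ∈ endSpan A (hull A e) :=
      Submodule.subset_span ⟨e j, AddSubgroup.subset_closure ⟨j, rfl⟩, rfl⟩
    exact (Submodule.mem_span_range_iff_exists_fun A.End).1 (F.span h2)
  choose β hβ using h1
  obtain ⟨M, c', hM, hc'⟩ := exists_common_denominator
    (fun t : Fin N × Fin 2 × Fin (finrank ℚ A.End) =>
      (Module.finBasis ℚ A.End).repr (β t.1 t.2.1) t.2.2)
  refine ⟨M, fun j i l => c' (j, i, l), hM, fun k => ?_⟩
  have h3 : ∀ j i, (M : ℚ) • β j i = ∑ l, ((c' (j, i, l) : ℤ) : ℚ) • Module.finBasis ℚ A.End l := by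
    intro j i
    conv_lhs => rw [← (Module.finBasis ℚ A.End).sum_repr (β j i)]
    rw [Finset.smul_sum]
    refine Finset.sum_congr rfl fun l _ => ?_
    rw [smul_smul, hc' (j, i, l)]
  have h4 : ∀ j, (M : ℚ) • ((1 : ℚ) ⊗ₜ[ℤ] e j)
      = ∑ i, (∑ l, ((c' (j, i, l) : ℤ) : ℚ) • Module.finBasis ℚ A.End l) • F.g i := by
    intro j
    rw [← hβ, Finset.smul_sum]
    refine Finset.sum_congr rfl fun i _ => ?_
    rw [← smul_assoc, h3]
  rw [vec_eq, Finset.smul_sum]
  have h5 : ∀ j, (M : ℚ) • ((k j : ℚ) • ((1 : ℚ) ⊗ₜ[ℤ] e j))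
      = ∑ i, ((k j : ℚ) • ∑ l, ((c' (j, i, l) : ℤ) : ℚ) • Module.finBasis ℚ A.End l) • F.g i := by
    intro j
    rw [smul_comm, h4, Finset.smul_sum]
    exact Finset.sum_congr rfl fun i _ => (smul_assoc _ _ _).symm
  simp only [h5]
  rw [Finset.sum_comm]
  refine Finset.sum_congr rfl fun i _ => ?_
  rw [← Finset.sum_smul]
  congr 1
  simp only [Finset.smul_sum, smul_smul]
  rw [Finset.sum_comm]
  refine Finset.sum_congr rfl fun l _ => ?_
  rw [← Finset.sum_smul]
  congr 1
  push_cast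
  rfl

/-- The upper bound for the number of the exceptions. -/
theorem exceptions_le (hcomm : ∀ x y : A.End, x * y = y * x) (he : Independent A e)
    (hdim : finrank A.End (endSpan A (hull A e)) = 2) :
    ∃ C : ℝ, 0 < C ∧ ∀ H : ℕ, 1 ≤ H → (exceptions A e H : ℝ)
      ≤ C * (H : ℝ) ^ (max 4 (finrank ℚ A.End)) * (1 + Real.log H) := by
  classical
  set f := finrank ℚ A.End with hf
  have hf1 : 1 ≤ f := Module.finrank_pos
  by_cases hex : ∃ k : Fin 2 → Fin N → ℤ, LinearIndependent ℚ (fun i => vec A e (k i)) ∧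
      ¬ GoodTuple A e k
  swap
  · push Not at hex
    refine ⟨1, one_pos, fun H hH => ?_⟩
    have h0 : exceptions A e H = 0 := by
      rw [exceptions, Finset.card_eq_zero, Finset.filter_eq_empty_iff]
      rintro k - ⟨h1, h2⟩
      exact h2 (hex k h1)
    rw [h0, Nat.cast_zero]
    have : (1 : ℝ) ≤ H := by exact_mod_cast hH
    have := Real.log_nonneg this
    positivity
  obtain ⟨k₀, hk₀, hbad₀⟩ := hex
  obtain ⟨F⟩ := exists_frame A hcomm e hdim k₀ hk₀ hbad₀
  obtain ⟨M, c, hM, hc⟩ := exists_coordinates A e F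
  have hM' : (M : ℚ) ≠ 0 := by exact_mod_cast hM.ne'
  let C₀ : ℕ := 1 + ∑ j, ∑ i, ∑ l, (c j i l).natAbs
  have hC₀ : 1 ≤ C₀ := Nat.le_add_right _ _
  let co : (Fin N → ℤ) → Fin 2 → Fin f → ℤ := fun k i l => ∑ j, k j * c j i l
  have hco : ∀ k, (M : ℚ) • vec A e k = ∑ i,
      (∑ l, ((co k i l : ℤ) : ℚ) • Module.finBasis ℚ A.End l) • F.g i := hc
  let Φ : (Fin 2 → Fin N → ℤ) → (Fin 4 → Fin f → ℤ) := fun k s =>
    co (k (finProdFinEquiv.symm s : Fin 2 × Fin 2).1) (finProdFinEquiv.symm s : Fin 2 × Fin 2).2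
  have hinj0 : ∀ k k' : Fin N → ℤ, co k = co k' → k = k' := by
    intro k k' h
    have h1 : (M : ℚ) • vec A e k = (M : ℚ) • vec A e k' := by rw [hco, hco, h]
    have h2 : vec A e k = vec A e k' := by
      have := congrArg (fun z => (M : ℚ)⁻¹ • z) h1
      simpa only [smul_smul, inv_mul_cancel₀ hM', one_smul] using this
    rw [vec_eq, vec_eq] at h2
    have h3 : ∑ j, ((k j : ℚ) - (k' j : ℚ)) • ((1 : ℚ) ⊗ₜ[ℤ] e j) = 0 := by
      simp only [sub_smul, Finset.sum_sub_distrib]
      rw [h2, sub_self]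
    have h4 := Fintype.linearIndependent_iff.1 he _ h3
    funext j
    have h5 := h4 j
    rw [sub_eq_zero] at h5
    exact_mod_cast h5
  have hinj : Function.Injective Φ := by
    intro k k' h
    funext t
    apply hinj0
    funext i
    have h1 := congrFun h (finProdFinEquiv (t, i))
    simp only [Φ, Equiv.symm_apply_apply] at h1
    exact h1
  -- the bound
  have hmain : ∀ H : ℕ, 1 ≤ H → (exceptions A e H : ℝ)
      ≤ 162 * f * 3 ^ (f - 1) * ((C₀ * H : ℕ) : ℝ) ^ (max 4 f) * (1 + Real.log ((C₀ * H : ℕ) : ℝ)) := by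
    intro H hH
    let E := (box 2 N H).filter fun k => LinearIndependent ℚ (fun i => vec A e (k i)) ∧
      ¬ GoodTuple A e k
    have h1 : exceptions A e H = (E.image Φ).card := by
      rw [Finset.card_image_of_injective _ hinj]
      rfl
    rw [h1]
    refine card_rankOne hf1 (Nat.mul_pos hC₀ hH) _ ?_
    intro a ha
    rw [Finset.mem_image] at ha
    obtain ⟨k, hk, rfl⟩ := ha
    rw [Finset.mem_filter] at hk
    obtain ⟨hbox, hli, hbad⟩ := hk
    obtain ⟨δ, hδ⟩ := F.all k hli hbad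
    choose q hq using hδ
    -- the coordinates are products
    have hprod : ∀ t i l, ((co (k t) i l : ℤ) : ℚ)
        = (M : ℚ) * q t i * (Module.finBasis ℚ A.End).repr δ l := by
      intro t
      have h2 := hco (k t)
      rw [hq t] at h2
      have h3 : (M : ℚ) • δ • ∑ j, q t j • F.g j = ∑ i, (((M : ℚ) * q t i) • δ) • F.g i := by
        rw [Finset.smul_sum, Finset.smul_sum]
        refine Finset.sum_congr rfl fun i _ => ?_
        rw [end_rat_smul, smul_smul, ← smul_assoc]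
      rw [h3] at h2
      have h4 : ∑ i, ((((M : ℚ) * q t i) • δ)
          - (∑ l, ((co (k t) i l : ℤ) : ℚ) • Module.finBasis ℚ A.End l)) • F.g i = 0 := by
        simp only [sub_smul, Finset.sum_sub_distrib]
        rw [h2, sub_self]
      have h5 := Fintype.linearIndependent_iff.1 F.endIndep _ h4
      intro i l
      have h6 := sub_eq_zero.1 (h5 i)
      have h7 := congrArg (fun z => (Module.finBasis ℚ A.End).repr z l) h6
      simp only [map_smul, Finsupp.smul_apply, smul_eq_mul] at h7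
      rw [h7]
      rw [Basis.repr_sum_self]
    refine ⟨?_, ?_, ?_⟩
    · intro h0
      have h2 : k = 0 := by
        apply hinj
        rw [h0]
        funext s l
        simp [Φ, co]
      apply hli.ne_zero 0
      change vec A e (k 0) = 0
      rw [vec_eq, h2]
      simp
    · intro s l
      change (∑ j, k (finProdFinEquiv.symm s : Fin 2 × Fin 2).1 j
        * c j (finProdFinEquiv.symm s : Fin 2 × Fin 2).2 l).natAbs ≤ C₀ * H
      set t := (finProdFinEquiv.symm s : Fin 2 × Fin 2).1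
      set i := (finProdFinEquiv.symm s : Fin 2 × Fin 2).2
      have h2 : (∑ j, k t j * c j i l).natAbs ≤ ∑ j, (k t j * c j i l).natAbs :=
        Int.natAbs_sum_le _ _
      have h3 : ∀ j, (k t j).natAbs ≤ H := by
        intro j
        rw [box, Fintype.mem_piFinset] at hbox
        have h4 := hbox t
        rw [Fintype.mem_piFinset] at h4
        have h5 := h4 j
        rw [Finset.mem_Icc] at h5
        omega
      have h4 : ∑ j, (k t j * c j i l).natAbs ≤ ∑ j, H * (c j i l).natAbs := by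
        refine Finset.sum_le_sum fun j _ => ?_
        rw [Int.natAbs_mul]
        exact Nat.mul_le_mul_right _ (h3 j)
      have h5 : ∑ j, (c j i l).natAbs ≤ C₀ := by
        refine le_trans ?_ (Nat.le_add_left _ 1)
        refine Finset.sum_le_sum fun j _ => ?_
        calc (c j i l).natAbs ≤ ∑ l, (c j i l).natAbs :=
              Finset.single_le_sum (f := fun l => (c j i l).natAbs)
                (fun _ _ => Nat.zero_le _) (Finset.mem_univ l)
          _ ≤ ∑ i, ∑ l, (c j i l).natAbs :=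
              Finset.single_le_sum (f := fun i => ∑ l, (c j i l).natAbs)
                (fun _ _ => Nat.zero_le _) (Finset.mem_univ i)
      calc (∑ j, k t j * c j i l).natAbs ≤ ∑ j, H * (c j i l).natAbs := h2.trans h4
        _ = H * ∑ j, (c j i l).natAbs := by rw [Finset.mul_sum]
        _ ≤ H * C₀ := Nat.mul_le_mul_left _ h5
        _ = C₀ * H := mul_comm _ _
    · intro s s' l l'
      have h2 : ((Φ k s l : ℤ) : ℚ) * ((Φ k s' l' : ℤ) : ℚ)
          = ((Φ k s l' : ℤ) : ℚ) * ((Φ k s' l : ℤ) : ℚ) := by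
        change ((co _ _ l : ℤ) : ℚ) * ((co _ _ l' : ℤ) : ℚ)
          = ((co _ _ l' : ℤ) : ℚ) * ((co _ _ l : ℤ) : ℚ)
        rw [hprod, hprod, hprod, hprod]
        ring
      exact_mod_cast h2
  refine ⟨162 * f * 3 ^ (f - 1) * (C₀ : ℝ) ^ (max 4 f) * (1 + Real.log C₀), ?_, fun H hH => ?_⟩
  · have h1 : (0 : ℝ) < f := by exact_mod_cast hf1
    have h2 : (1 : ℝ) ≤ C₀ := by exact_mod_cast hC₀
    have h3 := Real.log_nonneg h2
    positivity
  · refine (hmain H hH).trans ?_
    have h2 : (1 : ℝ) ≤ C₀ := by exact_mod_cast hC₀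
    have h3 := Real.log_nonneg h2
    have h4 : (1 : ℝ) ≤ H := by exact_mod_cast hH
    have h5 := Real.log_nonneg h4
    push_cast
    rw [Real.log_mul (by positivity) (by positivity), mul_pow]
    have h6 : 1 + (Real.log C₀ + Real.log H) ≤ (1 + Real.log C₀) * (1 + Real.log H) := by
      nlinarith [mul_nonneg h3 h5]
    calc 162 * (f : ℝ) * 3 ^ (f - 1) * ((C₀ : ℝ) ^ max 4 f * (H : ℝ) ^ max 4 f)
          * (1 + (Real.log C₀ + Real.log H))
        ≤ 162 * (f : ℝ) * 3 ^ (f - 1) * ((C₀ : ℝ) ^ max 4 f * (H : ℝ) ^ max 4 f)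
          * ((1 + Real.log C₀) * (1 + Real.log H)) := by gcongr
      _ = _ := by ring

end Upper

end Pool.Agent.L5helper66.PC
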