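import Pool.Agent.L5helper66.PC.PairCount

/-!
# The lower bound for the number of the exceptions
-/

set_option autoImplicit false

open TensorProduct Module Matrix Pool.Agent.E8helper40.PC Pool.Agent.E8helper14.PA

namespace Pool.Agent.L5helper66.PC

variable {p : ℕ} [Fact p.Prime] {n : ℕ} (A : SimpleAbelianVariety p n)

section Lower

variable {N : ℕ} (e : Fin N → A.Pts)

/-- The cubes of the parameters. -/
noncomputable def cube (d : ℕ) (τ : Fin d → ℕ) (Y : ℕ) : Finset (Fin d → ℤ) :=
  Fintype.piFinset fun s => Finset.Ioc ((τ s * Y : ℕ) : ℤ) ((τ s * Y + Y : ℕ) : ℤ)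

lemma card_cube (d : ℕ) (τ : Fin d → ℕ) (Y : ℕ) : (cube d τ Y).card = Y ^ d := by
  rw [cube, Fintype.card_piFinset]
  have h : ∀ s, (Finset.Ioc ((τ s * Y : ℕ) : ℤ) ((τ s * Y + Y : ℕ) : ℤ)).card = Y := by
    intro s
    rw [Int.card_Ioc]
    omega
  simp only [h]
  rw [Finset.prod_const, Finset.card_univ, Fintype.card_fin]

lemma lower_of_family {d : ℕ} (τ : Fin d → ℕ) (hτ : ∀ s, τ s ≤ 1)
    (ψ : (Fin d → ℤ) → (Fin 2 → Fin N → ℤ)) (C₁ : ℕ) (hC₁ : 1 ≤ C₁)
    (hbound : ∀ (u : Fin d → ℤ) (Y : ℕ), (∀ s, (u s).natAbs ≤ Y) →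
      ∀ t j, (ψ u t j).natAbs ≤ C₁ * Y)
    (hinj : Function.Injective ψ)
    (hexc : ∀ Y, ∀ u ∈ cube d τ Y, LinearIndependent ℚ (fun i => vec A e (ψ u i)) ∧
      ¬ GoodTuple A e (ψ u)) :
    ∃ c : ℝ, 0 < c ∧ ∃ H₀ : ℕ, ∀ H : ℕ, H₀ ≤ H → c * (H : ℝ) ^ d ≤ exceptions A e H := by
  classical
  refine ⟨(1 / (4 * C₁ : ℝ)) ^ d, by positivity, 4 * C₁, fun H hH => ?_⟩
  set Y := H / (2 * C₁) with hY
  have hcard : (cube d τ Y).card ≤ exceptions A e H := by
    rw [exceptions]
    refine Finset.card_le_card_of_injOn ψ ?_ (hinj.injOn)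
    intro u hu
    rw [Finset.mem_coe] at hu
    rw [Finset.mem_coe, Finset.mem_filter]
    refine ⟨?_, hexc Y u hu⟩
    have hu2 : ∀ s, (u s).natAbs ≤ 2 * Y := by
      intro s
      rw [cube, Fintype.mem_piFinset] at hu
      have h1 := hu s
      rw [Finset.mem_Ioc] at h1
      have h2 : τ s * Y ≤ Y := by
        calc τ s * Y ≤ 1 * Y := Nat.mul_le_mul_right _ (hτ s)
          _ = Y := one_mul _
      push_cast at h1
      have h3 : ((τ s : ℤ) * (Y : ℤ)) ≤ (Y : ℤ) := by exact_mod_cast h2
      have h4 : (0 : ℤ) ≤ (τ s : ℤ) * (Y : ℤ) := by positivity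
      omega
    rw [box, Fintype.mem_piFinset]
    intro t
    rw [Fintype.mem_piFinset]
    intro j
    have h1 := hbound u (2 * Y) hu2 t j
    have h2 : C₁ * (2 * Y) ≤ H := by
      have h3 : 2 * C₁ * Y ≤ H := Nat.mul_div_le H (2 * C₁)
      calc C₁ * (2 * Y) = 2 * C₁ * Y := by ring
        _ ≤ H := h3
    rw [Finset.mem_Icc]
    omega
  rw [card_cube] at hcard
  have h1 : (H : ℝ) / (4 * C₁) ≤ Y := by
    have hC : (0 : ℝ) < C₁ := by exact_mod_cast hC₁
    have h2 : (H : ℝ) < (2 * C₁) * (Y + 1) := by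
      have h3 : H < 2 * C₁ * (H / (2 * C₁) + 1) := Nat.lt_mul_div_succ H (by omega)
      exact_mod_cast h3
    have h4 : (4 * C₁ : ℝ) ≤ H := by exact_mod_cast hH
    rw [div_le_iff₀ (by positivity)]
    nlinarith
  calc (1 / (4 * C₁ : ℝ)) ^ d * (H : ℝ) ^ d = ((H : ℝ) / (4 * C₁)) ^ d := by
        rw [← mul_pow]
        congr 1
        ring
    _ ≤ (Y : ℝ) ^ d := by gcongr
    _ ≤ _ := by exact_mod_cast hcard

/-- If the number `N` of the points is `2 [End⁰(A) : ℚ]` their combinations fill `End⁰(A) ⟨e⟩`. -/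
lemma endSpan_le (he : Independent A e) (hdim : finrank A.End (endSpan A (hull A e)) = 2)
    (hN : N = 2 * finrank ℚ A.End) {z : ℚ ⊗[ℤ] A.Pts} (hz : z ∈ endSpan A (hull A e)) :
    z ∈ Submodule.span ℚ (Set.range fun j => (1 : ℚ) ⊗ₜ[ℤ] e j) := by
  have hfin : FiniteDimensional A.End (endSpan A (hull A e)) :=
    FiniteDimensional.of_finrank_pos (by omega)
  have hfinQ : FiniteDimensional ℚ ((endSpan A (hull A e)).restrictScalars ℚ) :=
    Module.Finite.trans (R := ℚ) A.End (endSpan A (hull A e))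
  have h1 : Submodule.span ℚ (Set.range fun j => (1 : ℚ) ⊗ₜ[ℤ] e j)
      ≤ (endSpan A (hull A e)).restrictScalars ℚ := by
    rw [Submodule.span_le]
    rintro _ ⟨j, rfl⟩
    exact Submodule.subset_span ⟨e j, AddSubgroup.subset_closure ⟨j, rfl⟩, rfl⟩
  have h2 : finrank ℚ ((endSpan A (hull A e)).restrictScalars ℚ) = N := by
    have h3 := Module.finrank_mul_finrank ℚ A.End (endSpan A (hull A e))
    rw [hdim] at h3
    have h4 : finrank ℚ ((endSpan A (hull A e)).restrictScalars ℚ)
        = finrank ℚ (endSpan A (hull A e)) := rfl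
    omega
  have h3 : finrank ℚ (Submodule.span ℚ (Set.range fun j => (1 : ℚ) ⊗ₜ[ℤ] e j)) = N := by
    rw [finrank_span_eq_card he, Fintype.card_fin]
  have h4 := Submodule.eq_of_le_of_finrank_eq h1 (by rw [h2, h3])
  rw [h4]
  exact hz

lemma zcomb_bound {d : ℕ} (m : Fin d → Fin N → ℤ) (u : Fin d → ℤ) (Y : ℕ)
    (hu : ∀ s, (u s).natAbs ≤ Y) (j : Fin N) :
    (∑ s, u s * m s j).natAbs ≤ (∑ s, ∑ j, (m s j).natAbs) * Y := by
  have h1 : (∑ s, u s * m s j).natAbs ≤ ∑ s, (u s * m s j).natAbs := Int.natAbs_sum_le _ _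
  refine h1.trans ?_
  rw [Finset.sum_mul]
  refine Finset.sum_le_sum fun s _ => ?_
  rw [Int.natAbs_mul, mul_comm]
  refine Nat.mul_le_mul ?_ (hu s)
  exact Finset.single_le_sum (f := fun j => (m s j).natAbs) (fun _ _ => Nat.zero_le _)
    (Finset.mem_univ j)

lemma vec_zcomb {d : ℕ} (m : Fin d → Fin N → ℤ) (u : Fin d → ℤ) :
    vec A e (fun j => ∑ s, u s * m s j) = ∑ s, (u s : ℚ) • vec A e (m s) := by
  simp only [vec_eq, Finset.smul_sum, smul_smul]
  rw [Finset.sum_comm]
  refine Finset.sum_congr rfl fun j _ => ?_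
  rw [← Finset.sum_smul]
  congr 1
  push_cast
  rfl

/-- A group with the closure of rank one gives exceptions. -/
lemma not_good (F : Frame A e) (k : Fin 2 → Fin N → ℤ) {δ : A.End} (hδ : δ ≠ 0)
    (h : ∀ x, x ∈ Submodule.span ℚ (Set.range fun i => vec A e (k i)) ↔
      ∃ y ∈ Submodule.span ℚ (Set.range F.g), x = δ • y) : ¬ GoodTuple A e k := by
  intro hgood
  have h0 : ∀ i : Fin 2, IsOfFinAddOrder ((fun _ => 0 : Fin 2 → A.Pts) i) := fun _ =>
    IsOfFinAddOrder.zero
  have h1 := hgood (fun _ => 0) h0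
  have h2 := F.conv (tupleGroup A e (fun _ => 0) k) δ hδ (by
    intro x
    rw [ratSpan_tuple A e _ h0 k]
    exact h x)
  have h3 := rank_closure A _ h1
  have h4 := rank_closure A _ h2
  omega

lemma span_smul_iff (g : Fin 2 → ℚ ⊗[ℤ] A.Pts) (δ : A.End) (x : ℚ ⊗[ℤ] A.Pts) :
    x ∈ Submodule.span ℚ (Set.range fun i => δ • g i) ↔
      ∃ y ∈ Submodule.span ℚ (Set.range g), x = δ • y := by
  have key : ∀ a : Fin 2 → ℚ, δ • ∑ i, a i • g i = ∑ i, a i • δ • g i := by
    intro a
    rw [Finset.smul_sum]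
    exact Finset.sum_congr rfl fun i _ => end_rat_smul A _ _ _
  constructor
  · intro hx
    obtain ⟨a, ha⟩ := (Submodule.mem_span_range_iff_exists_fun ℚ).1 hx
    refine ⟨∑ i, a i • g i, Submodule.sum_mem _ fun s _ => Submodule.smul_mem _ _
      (Submodule.subset_span ⟨s, rfl⟩), ?_⟩
    rw [← ha, key]
  · rintro ⟨y, hy, rfl⟩
    obtain ⟨a, ha⟩ := (Submodule.mem_span_range_iff_exists_fun ℚ).1 hy
    rw [← ha, key]
    exact Submodule.sum_mem _ fun s _ => Submodule.smul_mem _ _ (Submodule.subset_span ⟨s, rfl⟩)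

/-- The lower bound for the number of the exceptions. -/
theorem exceptions_ge (hcomm : ∀ x y : A.End, x * y = y * x) (he : Independent A e)
    (hdim : finrank A.End (endSpan A (hull A e)) = 2) (hN : N = 2 * finrank ℚ A.End) :
    (∀ H, exceptions A e H = 0) ∨
    ∃ c : ℝ, 0 < c ∧ ∃ H₀ : ℕ, ∀ H : ℕ, H₀ ≤ H →
      c * (H : ℝ) ^ (max 4 (finrank ℚ A.End)) ≤ exceptions A e H := by
  classical
  set f := finrank ℚ A.End with hf
  have hf1 : 1 ≤ f := Module.finrank_pos
  by_cases hex : ∃ k : Fin 2 → Fin N → ℤ, LinearIndependent ℚ (fun i => vec A e (k i)) ∧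
      ¬ GoodTuple A e k
  swap
  · push Not at hex
    left
    intro H
    rw [exceptions, Finset.card_eq_zero, Finset.filter_eq_empty_iff]
    rintro k - ⟨h1, h2⟩
    exact h2 (hex k h1)
  right
  obtain ⟨k₀, hk₀, hbad₀⟩ := hex
  obtain ⟨F⟩ := exists_frame A hcomm e hdim k₀ hk₀ hbad₀
  let Δ : Option (Fin f) → A.End := fun o => o.elim 1 (Module.finBasis ℚ A.End)
  have h1 : ∀ (o : Option (Fin f)) (i : Fin 2), ∃ q : Fin N → ℚ,
      ∑ j, q j • ((1 : ℚ) ⊗ₜ[ℤ] e j) = Δ o • F.g i := by
    intro o i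
    have h2 : Δ o • F.g i ∈ endSpan A (hull A e) := Submodule.smul_mem _ _ (F.mem i)
    exact (Submodule.mem_span_range_iff_exists_fun ℚ).1 (endSpan_le A e he hdim hN h2)
  choose q hq using h1
  obtain ⟨M, m, hM, hm⟩ := exists_common_denominator
    (fun t : Option (Fin f) × Fin 2 × Fin N => q t.1 t.2.1 t.2.2)
  have hM' : (M : ℚ) ≠ 0 := by exact_mod_cast hM.ne'
  have hvec : ∀ o i, vec A e (fun j => m (o, i, j)) = (M : ℚ) • Δ o • F.g i := by
    intro o i
    rw [vec_eq, ← hq, Finset.smul_sum]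
    refine Finset.sum_congr rfl fun j _ => ?_
    rw [smul_smul, hm (o, i, j)]
  rcases le_total f 4 with h4 | h4
  · rw [max_eq_left h4]
    -- the pairs of elements of `L`
    let ψ : (Fin 4 → ℤ) → (Fin 2 → Fin N → ℤ) := fun u t j =>
      ∑ s : Fin 2, u (finProdFinEquiv (t, s)) * m (none, s, j)
    let C₁ : ℕ := 1 + ∑ s : Fin 2, ∑ j, (m (none, s, j)).natAbs
    have hψ : ∀ u t, vec A e (ψ u t)
        = ∑ s : Fin 2, ((M : ℚ) * (u (finProdFinEquiv (t, s)) : ℚ)) • F.g s := by
      intro u t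
      have h2 := vec_zcomb A e (fun (s : Fin 2) j => m (none, s, j))
        (fun s => u (finProdFinEquiv (t, s)))
      change vec A e (ψ u t) = _ at h2
      rw [h2]
      refine Finset.sum_congr rfl fun s _ => ?_
      rw [hvec]
      change _ • (M : ℚ) • (1 : A.End) • F.g s = _
      rw [one_smul, smul_smul, mul_comm]
    refine lower_of_family A e (fun s => if s = 0 ∨ s = 3 then 1 else 0)
      (fun s => by split_ifs <;> omega) ψ C₁ (Nat.le_add_right _ _) ?_ ?_ ?_
    · intro u Y hu t j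
      refine (zcomb_bound (fun (s : Fin 2) j => m (none, s, j))
        (fun s => u (finProdFinEquiv (t, s))) Y (fun s => hu _) j).trans ?_
      exact Nat.mul_le_mul_right _ (Nat.le_add_left _ _)
    · intro u u' h
      funext s
      obtain ⟨⟨t, i⟩, rfl⟩ := (finProdFinEquiv (m := 2) (n := 2)).surjective s
      have h2 : vec A e (ψ u t) = vec A e (ψ u' t) := by rw [h]
      rw [hψ, hψ] at h2
      have h3 : ∑ s : Fin 2, ((M : ℚ) * (u (finProdFinEquiv (t, s)) : ℚ)
          - (M : ℚ) * (u' (finProdFinEquiv (t, s)) : ℚ)) • F.g s = 0 := by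
        simp only [sub_smul, Finset.sum_sub_distrib]
        rw [h2, sub_self]
      have h5 := Fintype.linearIndependent_iff.1 F.indep _ h3 i
      rw [sub_eq_zero] at h5
      have h6 := mul_left_cancel₀ hM' h5
      exact_mod_cast h6
    · intro Y u hu
      have hdet : u 0 * u 3 - u 1 * u 2 ≠ 0 := by
        rw [cube, Fintype.mem_piFinset] at hu
        have g0 := hu 0
        have g1 := hu 1
        have g2 := hu 2
        have g3 := hu 3
        simp at g0 g1 g2 g3
        nlinarith
      have hb : ∀ t s : Fin 2, u (finProdFinEquiv (t, s)) = (!![u 0, u 1; u 2, u 3]) t s := by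
        intro t s
        fin_cases t <;> fin_cases s <;> rfl
      let B : Matrix (Fin 2) (Fin 2) ℚ := Matrix.of fun t s =>
        (M : ℚ) * (u (finProdFinEquiv (t, s)) : ℚ)
      have hBdet : B.det ≠ 0 := by
        have h2 : B.det = (M : ℚ) ^ 2 * ((u 0 * u 3 - u 1 * u 2 : ℤ) : ℚ) := by
          rw [Matrix.det_fin_two]
          change (M : ℚ) * _ * ((M : ℚ) * _) - (M : ℚ) * _ * ((M : ℚ) * _) = _
          rw [hb, hb, hb, hb]
          simp
          ring
        rw [h2]
        exact mul_ne_zero (pow_ne_zero _ hM') (by exact_mod_cast hdet)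
      have hvecB : (fun i => vec A e (ψ u i)) = fun i => ∑ s, B i s • F.g s := by
        funext i
        rw [hψ]
        rfl
      have hBu : IsUnit B.det := isUnit_iff_ne_zero.2 hBdet
      have hspan : Submodule.span ℚ (Set.range fun i => vec A e (ψ u i))
          = Submodule.span ℚ (Set.range F.g) := by
        rw [hvecB]
        apply le_antisymm
        · rw [Submodule.span_le]
          rintro _ ⟨i, rfl⟩
          exact Submodule.sum_mem _ fun s _ => Submodule.smul_mem _ _
            (Submodule.subset_span ⟨s, rfl⟩)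
        · rw [Submodule.span_le]
          rintro _ ⟨s, rfl⟩
          have h2 : F.g s = ∑ i, B⁻¹ s i • ∑ s', B i s' • F.g s' := by
            simp only [Finset.smul_sum, smul_smul]
            rw [Finset.sum_comm]
            have h3 : ∀ s', ∑ i, (B⁻¹ s i * B i s') • F.g s' = (B⁻¹ * B) s s' • F.g s' := by
              intro s'
              rw [← Finset.sum_smul]
              rfl
            simp only [h3, Matrix.nonsing_inv_mul _ hBu]
            rw [Finset.sum_eq_single s]
            · rw [Matrix.one_apply_eq, one_smul]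
            · intro b _ hb
              rw [Matrix.one_apply_ne (Ne.symm hb), zero_smul]
            · intro h
              exact absurd (Finset.mem_univ _) h
          rw [h2]
          exact Submodule.sum_mem _ fun i _ => Submodule.smul_mem _ _
            (Submodule.subset_span ⟨i, rfl⟩)
      refine ⟨?_, ?_⟩
      · rw [linearIndependent_iff_card_eq_finrank_span]
        change Fintype.card (Fin 2) = finrank ℚ (Submodule.span ℚ (Set.range fun i => vec A e (ψ u i)))
        rw [hspan, finrank_span_eq_card F.indep]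
      · apply not_good A e F (ψ u) (one_ne_zero)
        intro x
        rw [hspan]
        constructor
        · intro hx
          exact ⟨x, hx, (one_smul _ _).symm⟩
        · rintro ⟨y, hy, rfl⟩
          rwa [one_smul]
  · rw [max_eq_right h4]
    -- the pairs `λ g_0`, `λ g_1`
    let ψ : (Fin f → ℤ) → (Fin 2 → Fin N → ℤ) := fun u t j => ∑ l, u l * m (some l, t, j)
    let C₁ : ℕ := 1 + ∑ t : Fin 2, ∑ l : Fin f, ∑ j, (m (some l, t, j)).natAbs
    let lam : (Fin f → ℤ) → A.End := fun u => ∑ l, (u l : ℚ) • Module.finBasis ℚ A.End l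
    have hψ : ∀ u t, vec A e (ψ u t) = ((M : ℚ) • lam u) • F.g t := by
      intro u t
      have h2 := vec_zcomb A e (fun (l : Fin f) j => m (some l, t, j)) u
      change vec A e (ψ u t) = _ at h2
      rw [h2]
      simp only [lam, Finset.smul_sum, Finset.sum_smul]
      refine Finset.sum_congr rfl fun l _ => ?_
      rw [hvec]
      change _ • (M : ℚ) • (Module.finBasis ℚ A.End l) • F.g t = _
      rw [smul_comm, smul_assoc, smul_assoc]
    have hlam : ∀ u u', lam u = lam u' → u = u' := by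
      intro u u' h
      have h3 : ∑ l, ((u l : ℚ) - (u' l : ℚ)) • Module.finBasis ℚ A.End l = 0 := by
        simp only [sub_smul, Finset.sum_sub_distrib]
        exact sub_eq_zero.2 h
      funext l
      have h5 := Fintype.linearIndependent_iff.1 (Module.finBasis ℚ A.End).linearIndependent _ h3 l
      rw [sub_eq_zero] at h5
      exact_mod_cast h5
    refine lower_of_family A e (fun _ => 0) (fun _ => Nat.zero_le _) ψ C₁
      (Nat.le_add_right _ _) ?_ ?_ ?_
    · intro u Y hu t j
      refine (zcomb_bound (fun (l : Fin f) j => m (some l, t, j)) u Y hu j).trans ?_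
      refine Nat.mul_le_mul_right _ (le_trans ?_ (Nat.le_add_left _ 1))
      exact Finset.single_le_sum
        (f := fun t : Fin 2 => ∑ l : Fin f, ∑ j, (m (some l, t, j)).natAbs)
        (fun _ _ => Nat.zero_le _) (Finset.mem_univ t)
    · intro u u' h
      apply hlam
      have h2 : vec A e (ψ u 0) = vec A e (ψ u' 0) := by rw [h]
      rw [hψ, hψ] at h2
      have h3 : ((M : ℚ) • lam u - (M : ℚ) • lam u') • F.g 0 = 0 := by
        rw [sub_smul, h2, sub_self]
      have h5 := (smul_eq_zero.1 h3).resolve_right (F.indep.ne_zero 0)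
      rw [← smul_sub] at h5
      exact sub_eq_zero.1 ((smul_eq_zero.1 h5).resolve_left hM')
    · intro Y u hu
      have hlam0 : lam u ≠ 0 := by
        intro h0
        have h2 : lam u = lam 0 := by
          rw [h0]
          simp [lam]
        have h3 := hlam _ _ h2
        rw [cube, Fintype.mem_piFinset] at hu
        have h5 := hu ⟨0, hf1⟩
        rw [h3] at h5
        simp at h5
      have hδ0 : (M : ℚ) • lam u ≠ 0 := smul_ne_zero hM' hlam0
      have hvecB : (fun i => vec A e (ψ u i)) = fun i => ((M : ℚ) • lam u) • F.g i := by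
        funext i
        rw [hψ]
      refine ⟨?_, ?_⟩
      · rw [hvecB, Fintype.linearIndependent_iff]
        intro a ha
        have h2 : ((M : ℚ) • lam u) • ∑ i, a i • F.g i = 0 := by
          rw [← ha, Finset.smul_sum]
          exact Finset.sum_congr rfl fun i _ => end_rat_smul A _ _ _
        have h3 := (smul_eq_zero.1 h2).resolve_left hδ0
        exact Fintype.linearIndependent_iff.1 F.indep a h3
      · apply not_good A e F (ψ u) hδ0
        intro x
        rw [hvecB]
        exact span_smul_iff A F.g _ x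

end Lower

end Pool.Agent.L5helper66.PC
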