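import Pool.Agent.E8helper40.PC.Main

/-!
# Subgroups of a simple abelian variety whose `p`-adic closure has rank one
-/

set_option autoImplicit false

open TensorProduct Module Matrix Pool.Agent.E8helper40.PC

namespace Pool.Agent.L5helper66.PC

variable {p : ℕ} [Fact p.Prime] {n : ℕ} (A : SimpleAbelianVariety p n)

/-- `L ⊗ ℚ`, as a subspace of `A(ℚ) ⊗ ℚ`. -/
noncomputable def ratSpan (L : AddSubgroup A.Pts) : Submodule ℚ (ℚ ⊗[ℤ] A.Pts) :=
  Submodule.span ℚ ((fun x : A.Pts => (1 : ℚ) ⊗ₜ[ℤ] x) '' L)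

/-- The points of `A(ℚ)` which lie in `End⁰(A) P`, up to torsion. -/
noncomputable def orbit (P : A.Pts) : AddSubgroup A.Pts where
  carrier := {Q | ∃ δ : A.End, (1 : ℚ) ⊗ₜ[ℤ] Q = δ • ((1 : ℚ) ⊗ₜ[ℤ] P)}
  add_mem' := by
    rintro a b ⟨δ, hδ⟩ ⟨ε, hε⟩
    exact ⟨δ + ε, by rw [TensorProduct.tmul_add, hδ, hε, add_smul]⟩
  zero_mem' := ⟨0, by rw [TensorProduct.tmul_zero, zero_smul]⟩
  neg_mem' := by
    rintro a ⟨δ, hδ⟩
    exact ⟨-δ, by rw [TensorProduct.tmul_neg, hδ, neg_smul]⟩

/-- The logarithm on `A(ℚ) ⊗ ℚ`. -/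
noncomputable abbrev lg : ℚ ⊗[ℤ] A.Pts →ₗ[ℚ] (Fin n → ℚ_[p]) := extend (A.log.comp A.incl)

/-- The action of `End⁰(A)` on `Lie A ⊗ ℚ_p`. -/
noncomputable abbrev act (δ : A.End) : Matrix (Fin n) (Fin n) ℚ_[p] :=
  (A.lie δ).map (algebraMap ℚ ℚ_[p])

lemma act_mul (δ ε : A.End) : act A (δ * ε) = act A δ * act A ε := by
  rw [act, map_mul, Matrix.map_mul]

lemma act_one : act A 1 = 1 := by
  rw [act, map_one, Matrix.map_one _ (map_zero _) (map_one _)]

lemma lg_smul (δ : A.End) (v : ℚ ⊗[ℤ] A.Pts) : lg A (δ • v) = (act A δ).mulVec (lg A v) :=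
  A.log_smul δ v

lemma lg_tmul (x : A.Pts) : lg A ((1 : ℚ) ⊗ₜ x) = A.log (A.incl x) := by
  rw [lg, extend_tmul, one_smul]
  rfl

lemma act_rat_smul (q : ℚ) (δ : A.End) (w : Fin n → ℚ_[p]) :
    (act A (q • δ)).mulVec w = (q : ℚ_[p]) • (act A δ).mulVec w := by
  have h : A.lie (q • δ) = q • A.lie δ := map_rat_smul A.lie q δ
  rw [act, h, ← Matrix.smul_mulVec]
  congr 1

lemma act_add (δ ε : A.End) (w : Fin n → ℚ_[p]) :
    (act A (δ + ε)).mulVec w = (act A δ).mulVec w + (act A ε).mulVec w := by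
  rw [act, map_add, ← Matrix.add_mulVec]
  congr 1

lemma act_sum {ι : Type*} (s : Finset ι) (f : ι → A.End) (w : Fin n → ℚ_[p]) :
    (act A (∑ i ∈ s, f i)).mulVec w = ∑ i ∈ s, (act A (f i)).mulVec w := by
  classical
  induction s using Finset.induction_on with
  | empty =>
    have h : act A 0 = 0 := by
      rw [act, map_zero]
      ext i j
      simp
    rw [Finset.sum_empty, h, Finset.sum_empty, Matrix.zero_mulVec]
  | insert a s ha ih => rw [Finset.sum_insert ha, act_add, ih, Finset.sum_insert ha]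

/-- A vector of logarithms of a point of infinite order is not zero. -/
lemma lg_ne_zero {v : ℚ ⊗[ℤ] A.Pts} (hv : v ≠ 0) : lg A v ≠ 0 := by
  intro h
  have hli : LinearIndependent A.End (fun _ : Fin 1 => v) := by
    rw [linearIndependent_unique_iff]
    exact hv
  have h1 := A.independent 1 _ hli
  have h2 := h1.ne_zero (⟨0, A.pos⟩, 0)
  apply h2
  change algebraMap ℚ_[p] (AlgebraicClosure ℚ_[p]) (lg A v ⟨0, A.pos⟩) = 0
  rw [h]
  simp

/-- A rational matrix with an eigenvector whose coordinates are linearly independent over the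
algebraic numbers is a scalar matrix. -/
lemma scalar_of_eigenvector {s : ℕ} (hs : 0 < s) (C : Matrix (Fin s) (Fin s) ℚ)
    (c : Fin s → ℚ_[p]) (κ : ℚ_[p])
    (hc : LinearIndependent (Qbar p) fun i => algebraMap ℚ_[p] (AlgebraicClosure ℚ_[p]) (c i))
    (h : (C.map (algebraMap ℚ ℚ_[p])).mulVec c = κ • c) :
    ∃ q : ℚ, κ = q ∧ C = q • (1 : Matrix (Fin s) (Fin s) ℚ) := by
  have hc0 : c ≠ 0 := by
    intro h0
    apply hc.ne_zero ⟨0, hs⟩
    rw [h0]
    simp
  have halg : IsAlgebraic ℚ κ := by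
    have h1 : Module.End.HasEigenvalue (Matrix.toLin' (C.map (algebraMap ℚ ℚ_[p]))) κ := by
      apply Module.End.hasEigenvalue_of_hasEigenvector (x := c)
      rw [Module.End.hasEigenvector_iff]
      refine ⟨?_, hc0⟩
      rw [Module.End.mem_eigenspace_iff, Matrix.toLin'_apply, h]
    have h2 := (Module.End.hasEigenvalue_iff_isRoot_charpoly _ _).1 h1
    rw [Matrix.charpoly_toLin', Matrix.charpoly_map] at h2
    refine ⟨C.charpoly, (Matrix.charpoly_monic C).ne_zero, ?_⟩
    rwa [Polynomial.IsRoot, Polynomial.eval_map_algebraMap] at h2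
  have hint : IsAlgebraic ℚ (algebraMap ℚ_[p] (AlgebraicClosure ℚ_[p]) κ) :=
    halg.algebraMap
  let κ' : Qbar p := ⟨algebraMap ℚ_[p] (AlgebraicClosure ℚ_[p]) κ, mem_algebraicClosure_iff.2 hint⟩
  have key : ∀ i j, (algebraMap ℚ (Qbar p) (C i j) : Qbar p) - (if i = j then κ' else 0) = 0 := by
    intro i
    have hrow := congrFun h i
    have h3 : ∑ j, ((algebraMap ℚ (Qbar p) (C i j) : Qbar p) - (if i = j then κ' else 0)) •
        algebraMap ℚ_[p] (AlgebraicClosure ℚ_[p]) (c j) = 0 := by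
      simp only [sub_smul, Finset.sum_sub_distrib]
      have h4 : ∑ j, (if i = j then κ' else (0 : Qbar p)) •
          algebraMap ℚ_[p] (AlgebraicClosure ℚ_[p]) (c j)
          = algebraMap ℚ_[p] (AlgebraicClosure ℚ_[p]) (κ * c i) := by
        rw [Finset.sum_eq_single i]
        · rw [if_pos rfl, map_mul]
          rfl
        · intro j _ hj
          rw [if_neg (Ne.symm hj), zero_smul]
        · intro hi
          exact absurd (Finset.mem_univ _) hi
      have h5 : ∑ j, (algebraMap ℚ (Qbar p) (C i j) : Qbar p) •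
          algebraMap ℚ_[p] (AlgebraicClosure ℚ_[p]) (c j)
          = algebraMap ℚ_[p] (AlgebraicClosure ℚ_[p]) (∑ j, (C i j : ℚ_[p]) * c j) := by
        rw [map_sum]
        refine Finset.sum_congr rfl fun j _ => ?_
        rw [map_mul, Algebra.smul_def]
        congr 1
      rw [h4, h5]
      have h6 : ∑ j, (C i j : ℚ_[p]) * c j = κ * c i := by
        have h7 : ((C.map (algebraMap ℚ ℚ_[p])).mulVec c) i = ∑ j, (C i j : ℚ_[p]) * c j := by
          simp [Matrix.mulVec, dotProduct]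
        rw [← h7, hrow]
        rfl
      rw [h6, sub_self]
    exact Fintype.linearIndependent_iff.1 hc _ h3
  have hκ : κ' = algebraMap ℚ (Qbar p) (C ⟨0, hs⟩ ⟨0, hs⟩) := by
    have := key ⟨0, hs⟩ ⟨0, hs⟩
    rw [if_pos rfl, sub_eq_zero] at this
    exact this.symm
  refine ⟨C ⟨0, hs⟩ ⟨0, hs⟩, ?_, ?_⟩
  · apply (algebraMap ℚ_[p] (AlgebraicClosure ℚ_[p])).injective
    have h8 := congrArg (fun z : Qbar p => (z : AlgebraicClosure ℚ_[p])) hκ
    change algebraMap ℚ_[p] (AlgebraicClosure ℚ_[p]) κ = _ at h8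
    rw [h8]
    simp
  · ext i j
    have h9 := key i j
    rw [hκ] at h9
    by_cases hij : i = j
    · subst hij
      rw [if_pos rfl, sub_eq_zero] at h9
      have := (algebraMap ℚ (Qbar p)).injective h9
      simp [this]
    · rw [if_neg hij, sub_zero] at h9
      have : C i j = 0 := by
        apply (algebraMap ℚ (Qbar p)).injective
        rw [h9, map_zero]
      simp [this, hij]



/-- The vectors `δ_l · log v`, for a basis `δ_l` of `End⁰(A)` over `ℚ`, are linearly independent over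
`ℚ_p`. -/
def Full (v : Fin n → ℚ_[p]) : Prop :=
  ∀ (m : ℕ) (δ : Fin m → A.End), LinearIndependent ℚ δ →
    LinearIndependent ℚ_[p] fun l => (act A (δ l)).mulVec v

lemma full_smul {v : Fin n → ℚ_[p]} (h : Full A v) {a : ℚ_[p]} (ha : a ≠ 0) : Full A (a • v) := by
  intro m δ hδ
  have h1 := h m δ hδ
  have h2 : (fun l => (act A (δ l)).mulVec (a • v))
      = fun l => a • (act A (δ l)).mulVec v := by
    funext l
    rw [Matrix.mulVec_smul]
  rw [h2]
  have h3 := h1.units_smul (fun _ => Units.mk0 a ha)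
  exact h3

instance finiteEnd : Module.Finite ℚ A.End := by
  have : Nonempty (Fin n) := ⟨⟨0, A.pos⟩⟩
  have hinj : Function.Injective A.lie.toRatAlgHom := A.lie.injective
  exact Module.Finite.of_injective A.lie.toRatAlgHom.toLinearMap hinj

/-- It is enough to consider one basis. -/
lemma full_of_basis {v : Fin n → ℚ_[p]}
    (h : LinearIndependent ℚ_[p] fun l => (act A (Module.finBasis ℚ A.End l)).mulVec v) :
    Full A v := by
  intro m δ hδ
  -- coordinates of δ in the basis are linearly independent over ℚ_p too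
  rw [Fintype.linearIndependent_iff]
  intro g hg
  let ω := Module.finBasis ℚ A.End
  have h1 : ∀ l, ∑ i, g i * ((ω.repr (δ i) l : ℚ) : ℚ_[p]) = 0 := by
    have h2 : ∑ l, (∑ i, g i * ((ω.repr (δ i) l : ℚ) : ℚ_[p])) • (act A (ω l)).mulVec v = 0 := by
      rw [← hg]
      simp only [Finset.sum_smul]
      rw [Finset.sum_comm]
      refine Finset.sum_congr rfl fun i _ => ?_
      have h3 : (act A (δ i)).mulVec v
          = ∑ l, ((ω.repr (δ i) l : ℚ) : ℚ_[p]) • (act A (ω l)).mulVec v := by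
        conv_lhs => rw [← ω.sum_repr (δ i)]
        rw [act_sum]
        exact Finset.sum_congr rfl fun l _ => act_rat_smul A _ _ _
      rw [h3, Finset.smul_sum]
      exact Finset.sum_congr rfl fun l _ => by rw [smul_smul]
    exact Fintype.linearIndependent_iff.1 h _ h2
  have h4 : LinearIndependent ℚ fun i => (fun l => ω.repr (δ i) l : Fin _ → ℚ) := by
    have := hδ.map' (ω.equivFun.toLinearMap) (LinearMap.ker_eq_bot.2 ω.equivFun.injective)
    exact this
  have h5 := eq_zero_of_combination (k := ℚ_[p]) _ h4 g h1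
  exact fun i => congrFun h5 i

end Pool.Agent.L5helper66.PC
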