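import Pool.Agent.L5helper66.PC.Full

/-!
# Groups whose closure has rank one: independence and uniqueness
-/

set_option autoImplicit false

open TensorProduct Module Matrix Pool.Agent.E8helper40.PC

namespace Pool.Agent.L5helper66.PC

variable {p : ℕ} [Fact p.Prime] {n : ℕ} (A : SimpleAbelianVariety p n)

lemma lg_mem_logSpan (L : AddSubgroup A.Pts) {x : ℚ ⊗[ℤ] A.Pts} (hx : x ∈ ratSpan A L) :
    lg A x ∈ logSpan A L := by
  refine Submodule.span_induction (p := fun x _ => lg A x ∈ logSpan A L) ?_ ?_ ?_ ?_ hx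
  · rintro _ ⟨y, hy, rfl⟩
    rw [lg_tmul]
    exact Submodule.subset_span ⟨y, hy, rfl⟩
  · rw [map_zero]
    exact Submodule.zero_mem _
  · intro a b _ _ ha hb
    rw [map_add]
    exact Submodule.add_mem _ ha hb
  · intro q a _ ha
    rw [map_smul]
    have : q • lg A a = (q : ℚ_[p]) • lg A a := by
      ext i
      simp [Rat.smul_def]
    rw [this]
    exact Submodule.smul_mem _ _ ha

/-- The logarithms of the points of `L` are multiples of `w`. -/
def Line (L : AddSubgroup A.Pts) (w : Fin n → ℚ_[p]) : Prop :=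
  w ≠ 0 ∧ ∀ x ∈ ratSpan A L, ∃ c : ℚ_[p], lg A x = c • w

lemma line_of_rank {L : AddSubgroup A.Pts} (h : HasZpRank p (closure A L) 1) :
    ∃ w, Line A L w := by
  have h1 := (rank_closure A L h).symm
  obtain ⟨w, hw0, hw⟩ := finrank_eq_one_iff'.1 h1
  refine ⟨w, fun h0 => hw0 (Subtype.ext h0), fun x hx => ?_⟩
  obtain ⟨c, hc⟩ := hw ⟨lg A x, lg_mem_logSpan A L hx⟩
  exact ⟨c, (congrArg Subtype.val hc).symm⟩

lemma rat_smul_eq (q : ℚ) (v : Fin n → ℚ_[p]) : q • v = (q : ℚ_[p]) • v := by
  ext i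
  simp [Rat.smul_def]

/-- The coefficient of a point on the line. -/
lemma coeff_indep {w : Fin n → ℚ_[p]} {ι : Type*} [Fintype ι] (v : ι → ℚ ⊗[ℤ] A.Pts)
    (c : ι → ℚ_[p]) (hc : ∀ i, lg A (v i) = c i • w) (hv : LinearIndependent ℚ v)
    (g : ι → ℚ) (hg : ∑ i, (g i : ℚ_[p]) * c i = 0) : g = 0 := by
  have h1 : lg A (∑ i, g i • v i) = 0 := by
    rw [map_sum]
    have h2 : ∀ i, lg A (g i • v i) = ((g i : ℚ_[p]) * c i) • w := by
      intro i
      rw [map_smul, rat_smul_eq, hc, smul_smul]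
    simp only [h2]
    rw [← Finset.sum_smul, hg, zero_smul]
  have h3 : ∑ i, g i • v i = 0 := by
    by_contra h
    exact lg_ne_zero A h h1
  exact funext (Fintype.linearIndependent_iff.1 hv g h3)

/-- For all `A`: two independent points of a group with closure of rank one are independent over
`End⁰(A)`. -/
theorem pair_indep {L : AddSubgroup A.Pts} {w : Fin n → ℚ_[p]} (hL : Line A L w)
    {x y : ℚ ⊗[ℤ] A.Pts} (hx : x ∈ ratSpan A L) (hy : y ∈ ratSpan A L)
    (hxy : LinearIndependent ℚ ![x, y]) : LinearIndependent A.End ![x, y] := by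
  have hx0 : x ≠ 0 := hxy.ne_zero 0
  rw [LinearIndependent.pair_iff' hx0]
  intro δ hδ
  obtain ⟨a, ha⟩ := hL.2 x hx
  obtain ⟨b, hb⟩ := hL.2 y hy
  have ha0 : a ≠ 0 := by
    rintro rfl
    rw [zero_smul] at ha
    exact lg_ne_zero A hx0 ha
  have h1 : (act A δ).mulVec (lg A x) = (b / a) • lg A x := by
    rw [← lg_smul, hδ, hb, ha, smul_smul, div_mul_cancel₀ _ ha0]
  have hli : LinearIndependent (Qbar p) fun i =>
      algebraMap ℚ_[p] (AlgebraicClosure ℚ_[p]) (lg A x i) := by
    have h2 : LinearIndependent A.End (fun _ : Fin 1 => x) := by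
      rw [linearIndependent_unique_iff]
      exact hx0
    exact (A.independent 1 _ h2).comp (fun i : Fin n => (i, (0 : Fin 1)))
      (fun i j hij => congrArg Prod.fst hij)
  obtain ⟨q, hq, hC⟩ := scalar_of_eigenvector A.pos (A.lie δ) (lg A x) (b / a) hli h1
  have h3 : lg A (y - q • x) = 0 := by
    rw [map_sub, map_smul, rat_smul_eq, hb, ha, smul_smul, ← sub_smul, ← hq,
      div_mul_cancel₀ _ ha0, sub_self, zero_smul]
  have h4 : y = q • x := by
    by_contra h
    exact lg_ne_zero A (sub_ne_zero.2 h) h3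
  rw [LinearIndependent.pair_iff' hx0] at hxy
  exact hxy q h4.symm

/-- Independent points are independent over `End⁰(A)`. -/
theorem all_indep {w : Fin n → ℚ_[p]} (hw : Full A w) {m : ℕ} (v : Fin m → ℚ ⊗[ℤ] A.Pts)
    (c : Fin m → ℚ_[p]) (hc : ∀ i, lg A (v i) = c i • w) (hv : LinearIndependent ℚ v) :
    LinearIndependent A.End v := by
  rw [Fintype.linearIndependent_iff]
  intro δ hδ
  have h1 : ∑ i, c i • (act A (δ i)).mulVec w = 0 := by
    have h2 := congrArg (lg A) hδ
    rw [map_sum, map_zero] at h2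
    rw [← h2]
    refine Finset.sum_congr rfl fun i _ => ?_
    rw [lg_smul, hc, Matrix.mulVec_smul]
  have h2 : ∀ l, (fun i => (Module.finBasis ℚ A.End).repr (δ i) l) = 0 := by
    intro l
    apply coeff_indep A v c hc hv
    rw [← full_coord A hw c δ h1 l]
    exact Finset.sum_congr rfl fun i _ => mul_comm _ _
  intro i
  apply (Module.finBasis ℚ A.End).repr.injective
  rw [map_zero]
  ext l
  exact congrFun (h2 l) i

/-- The coefficients of points of `L` which are independent over `End⁰(A)` are linearly independent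
over the algebraic numbers. -/
lemma coeff_alg_indep {w : Fin n → ℚ_[p]} (hw0 : w ≠ 0) {m : ℕ} (v : Fin m → ℚ ⊗[ℤ] A.Pts)
    (c : Fin m → ℚ_[p]) (hc : ∀ i, lg A (v i) = c i • w) (hv : LinearIndependent A.End v) :
    LinearIndependent (Qbar p) fun i => algebraMap ℚ_[p] (AlgebraicClosure ℚ_[p]) (c i) := by
  obtain ⟨a, ha⟩ := Function.ne_iff.1 hw0
  have h1 := (A.independent m v hv).comp (fun i : Fin m => (a, i))
    (fun i j hij => congrArg Prod.snd hij)
  have ha' : algebraMap ℚ_[p] (AlgebraicClosure ℚ_[p]) (w a) ≠ 0 := by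
    rw [Ne, map_eq_zero]
    exact ha
  rw [Fintype.linearIndependent_iff] at h1 ⊢
  intro g hg
  apply h1
  have h2 : ∀ i, g i • algebraMap ℚ_[p] (AlgebraicClosure ℚ_[p]) (lg A (v i) a)
      = (g i • algebraMap ℚ_[p] (AlgebraicClosure ℚ_[p]) (c i))
        * algebraMap ℚ_[p] (AlgebraicClosure ℚ_[p]) (w a) := by
    intro i
    rw [hc, Pi.smul_apply, smul_eq_mul, map_mul, Algebra.smul_def, Algebra.smul_def]
    ring
  change ∑ i, g i • algebraMap ℚ_[p] (AlgebraicClosure ℚ_[p]) (lg A (v i) a) = 0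
  simp only [h2]
  rw [← Finset.sum_mul, hg, zero_mul]

/-- Multiplication by an element of `End⁰(A)` commutes with multiplication by rational numbers. -/
lemma end_rat_smul (δ : A.End) (q : ℚ) (v : ℚ ⊗[ℤ] A.Pts) : δ • (q • v) = q • (δ • v) :=
  map_rat_smul (DistribSMul.toAddMonoidHom (ℚ ⊗[ℤ] A.Pts) δ) q v

section Compare

variable {w : Fin n → ℚ_[p]} {s s' : ℕ} (e : Fin s → ℚ ⊗[ℤ] A.Pts)
  (c : Fin s → ℚ_[p]) (e' : Fin s' → ℚ ⊗[ℤ] A.Pts) (c' : Fin s' → ℚ_[p]) (w' : Fin n → ℚ_[p])
  (a : Fin s' → Fin s → A.End)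

/-- The coordinates of the matrix `a` in a basis of `End⁰(A)`. -/
noncomputable def cm (l : Fin (finrank ℚ A.End)) : Matrix (Fin s') (Fin s) ℚ :=
  Matrix.of fun i j => (Module.finBasis ℚ A.End).repr (a i j) l

variable {A} in
include A in
lemma cross (hw : Full A w) (hc : ∀ i, lg A (e i) = c i • w) (hc' : ∀ i, lg A (e' i) = c' i • w')
    (ha : ∀ i, e' i = ∑ j, a i j • e j) (l : Fin (finrank ℚ A.End)) (i k : Fin s') :
    c' k * (∑ j, c j * ((cm A a l i j : ℚ) : ℚ_[p]))
      = c' i * (∑ j, c j * ((cm A a l k j : ℚ) : ℚ_[p])) := by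
  have h1 : ∀ i, c' i • w' = ∑ j, c j • (act A (a i j)).mulVec w := by
    intro i
    rw [← hc', ha, map_sum]
    refine Finset.sum_congr rfl fun j _ => ?_
    rw [lg_smul, hc, Matrix.mulVec_smul]
  have h2 : ∑ t : Fin s ⊕ Fin s, (Sum.elim (fun j => c' k * c j) (fun j => -(c' i * c j)) t) •
      (act A (Sum.elim (a i) (a k) t)).mulVec w = 0 := by
    rw [Fintype.sum_sum_type]
    simp only [Sum.elim_inl, Sum.elim_inr, neg_smul, mul_smul, Finset.sum_neg_distrib]
    rw [← Finset.smul_sum, ← Finset.smul_sum, ← h1, ← h1, smul_smul, smul_smul,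
      mul_comm (c' i) (c' k), add_neg_cancel]
  have h3 := full_coord A hw _ _ h2 l
  rw [Fintype.sum_sum_type] at h3
  simp only [Sum.elim_inl, Sum.elim_inr, neg_mul, mul_assoc, Finset.sum_neg_distrib,
    ← Finset.mul_sum] at h3
  rw [← sub_eq_add_neg, sub_eq_zero] at h3
  exact h3

variable {A} in
theorem compare (hw : Full A w) (hw0 : w ≠ 0) (hc : ∀ i, lg A (e i) = c i • w)
    (hc' : ∀ i, lg A (e' i) = c' i • w') (ha : ∀ i, e' i = ∑ j, a i j • e j)
    (he : LinearIndependent ℚ e) (he' : LinearIndependent ℚ e') (hs' : 0 < s') :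
    s' ≤ s ∧ (s' = s → ∃ δ : A.End, δ ≠ 0 ∧
      ∀ i, ∃ y ∈ Submodule.span ℚ (Set.range e), e' i = δ • y) := by
  classical
  let o : Fin s' := ⟨0, hs'⟩
  have hco : c' o ≠ 0 := by
    intro h0
    have h1 := hc' o
    rw [h0, zero_smul] at h1
    exact lg_ne_zero A (he'.ne_zero o) h1
  let u : Fin (finrank ℚ A.End) → Fin s' → ℚ_[p] := fun l i =>
    ∑ j, c j * ((cm A a l i j : ℚ) : ℚ_[p])
  let ν : Fin (finrank ℚ A.End) → ℚ_[p] := fun l => u l o / c' o
  have hu : ∀ l i, u l i = ν l * c' i := by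
    intro l i
    have h1 := cross e c e' c' w' a hw hc hc' ha l i o
    change c' o * u l i = c' i * u l o at h1
    change u l i = u l o / c' o * c' i
    field_simp
    linear_combination h1
  have hzero : ∀ l, ν l = 0 → cm A a l = 0 := by
    intro l hl
    ext i j
    have h1 : ∑ j, ((cm A a l i j : ℚ) : ℚ_[p]) * c j = 0 := by
      have h2 := hu l i
      rw [hl, zero_mul] at h2
      rw [← h2]
      exact Finset.sum_congr rfl fun j _ => mul_comm _ _
    exact congrFun (coeff_indep A e c hc he (fun j => cm A a l i j) h1) j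
  have hrec : ∀ i j, a i j = ∑ l, cm A a l i j • Module.finBasis ℚ A.End l := fun i j =>
    ((Module.finBasis ℚ A.End).sum_repr (a i j)).symm
  obtain ⟨l₀, hl₀⟩ : ∃ l, ν l ≠ 0 := by
    by_contra hcon
    push Not at hcon
    apply he'.ne_zero o
    rw [ha]
    refine Finset.sum_eq_zero fun j _ => ?_
    rw [hrec]
    rw [Finset.sum_eq_zero fun l _ => ?_, zero_smul]
    rw [hzero l (hcon l)]
    simp
  have hrows : LinearIndependent ℚ (cm A a l₀).row := by
    rw [Fintype.linearIndependent_iff]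
    intro g hg
    have h1 : ∑ i, (g i : ℚ_[p]) * c' i = 0 := by
      have h2 : ν l₀ * ∑ i, (g i : ℚ_[p]) * c' i = 0 := by
        rw [Finset.mul_sum]
        have h3 : ∀ i, ν l₀ * ((g i : ℚ_[p]) * c' i) = (g i : ℚ_[p]) * u l₀ i := by
          intro i
          rw [hu]
          ring
        simp only [h3]
        have h4 : ∀ i, (g i : ℚ_[p]) * u l₀ i
            = ∑ j, c j * (((g i * cm A a l₀ i j : ℚ)) : ℚ_[p]) := by
          intro i
          change (g i : ℚ_[p]) * (∑ j, c j * ((cm A a l₀ i j : ℚ) : ℚ_[p])) = _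
          rw [Finset.mul_sum]
          refine Finset.sum_congr rfl fun j _ => ?_
          push_cast
          ring
        simp only [h4]
        rw [Finset.sum_comm]
        refine Finset.sum_eq_zero fun j _ => ?_
        rw [← Finset.mul_sum]
        have h5 := congrFun hg j
        simp only [Finset.sum_apply, Pi.smul_apply, smul_eq_mul, Pi.zero_apply, Matrix.row] at h5
        have h6 : ∑ i, ((g i * cm A a l₀ i j : ℚ) : ℚ_[p]) = 0 := by
          rw [← Rat.cast_sum, h5, Rat.cast_zero]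
        rw [h6, mul_zero]
      exact (mul_eq_zero.1 h2).resolve_left hl₀
    exact fun i => congrFun (coeff_indep A e' c' hc' he' g h1) i
  refine ⟨?_, ?_⟩
  · have h1 := hrows.fintype_card_le_finrank
    simpa using h1
  · rintro rfl
    have hunit : IsUnit (cm A a l₀) := Matrix.linearIndependent_rows_iff_isUnit.1 hrows
    have hdet : IsUnit (cm A a l₀).det := (Matrix.isUnit_iff_isUnit_det _).1 hunit
    have halg := coeff_alg_indep A hw0 e c hc (all_indep A hw e c hc he)
    have hq : ∀ l, ∃ q : ℚ, cm A a l = q • cm A a l₀ := by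
      intro l
      have hmv : ∀ l, ((cm A a l).map (algebraMap ℚ ℚ_[p])).mulVec c = ν l • c' := by
        intro l
        ext i
        rw [Pi.smul_apply, smul_eq_mul, ← hu]
        change ∑ j, algebraMap ℚ ℚ_[p] (cm A a l i j) * c j = _
        refine Finset.sum_congr rfl fun j _ => ?_
        rw [mul_comm]
        rfl
      have h1 : (((cm A a l₀)⁻¹ * cm A a l).map (algebraMap ℚ ℚ_[p])).mulVec c
          = (ν l / ν l₀) • c := by
        rw [Matrix.map_mul, ← Matrix.mulVec_mulVec, hmv]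
        have h2 : c' = (ν l₀)⁻¹ • ((cm A a l₀).map (algebraMap ℚ ℚ_[p])).mulVec c := by
          rw [hmv, smul_smul, inv_mul_cancel₀ hl₀, one_smul]
        have h3 : ((cm A a l₀)⁻¹.map (algebraMap ℚ ℚ_[p])).mulVec c' = (ν l₀)⁻¹ • c := by
          rw [h2, Matrix.mulVec_smul, Matrix.mulVec_mulVec, ← Matrix.map_mul,
            Matrix.nonsing_inv_mul _ hdet, Matrix.map_one _ (map_zero _) (map_one _),
            Matrix.one_mulVec]
        rw [Matrix.mulVec_smul, h3, smul_smul, div_eq_mul_inv]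
      obtain ⟨q, -, hq⟩ := scalar_of_eigenvector hs' _ c _ halg h1
      refine ⟨q, ?_⟩
      have h4 := congrArg (fun X => cm A a l₀ * X) hq
      simp only [← Matrix.mul_assoc, Matrix.mul_nonsing_inv _ hdet, Matrix.one_mul,
        Matrix.mul_smul, Matrix.mul_one] at h4
      exact h4
    choose q hq using hq
    let δ : A.End := ∑ l, q l • Module.finBasis ℚ A.End l
    have haδ : ∀ i j, a i j = cm A a l₀ i j • δ := by
      intro i j
      rw [hrec, Finset.smul_sum]
      refine Finset.sum_congr rfl fun l _ => ?_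
      rw [hq l, Matrix.smul_apply, smul_eq_mul, smul_smul, mul_comm]
    have hey : ∀ i, e' i = δ • ∑ j, cm A a l₀ i j • e j := by
      intro i
      rw [ha, Finset.smul_sum]
      refine Finset.sum_congr rfl fun j _ => ?_
      rw [haδ, end_rat_smul, smul_assoc]
    refine ⟨δ, ?_, fun i => ⟨_, Submodule.sum_mem _ fun j _ => Submodule.smul_mem _ _
      (Submodule.subset_span ⟨j, rfl⟩), hey i⟩⟩
    intro h0
    apply he'.ne_zero o
    rw [hey, h0, zero_smul]

end Compare

end Pool.Agent.L5helper66.PC
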